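import Pool.Agent.helper95.T5.SpecE

set_option autoImplicit false

/-!
# T5, row TR
-/

namespace Pool.Agent.T5

open Finset NumberField Pool.Agent.helper3.FT Pool.Agent.helper47.RA

theorem TR_sq_mod (p : ℤ) : p ^ 2 % 4 = 0 ∨ p ^ 2 % 4 = 1 := by
  have h3 : p % 4 = 0 ∨ p % 4 = 1 ∨ p % 4 = 2 ∨ p % 4 = 3 := by omega
  rcases h3 with h | h | h | h <;> simp [pow_two, Int.mul_emod, h]

theorem TR_odd_mod (n : ℤ) (hn : n % 2 = 1) : n ^ 2 % 4 = 1 := by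
  have h3 : n % 4 = 1 ∨ n % 4 = 3 := by omega
  rcases h3 with h | h <;> simp [pow_two, Int.mul_emod, h]

theorem TR_mod (D n p q : ℤ) (hn : n % 2 = 1) (h : D * n ^ 2 = p ^ 2 - 4 * q) :
    D % 4 = 0 ∨ D % 4 = 1 := by
  have h1 := TR_odd_mod n hn
  have h2 : (D * n ^ 2) % 4 = D % 4 := by
    rw [Int.mul_emod, h1]
    simp
  have h3 : (D * n ^ 2) % 4 = p ^ 2 % 4 := by
    rw [h]
    omega
  rcases TR_sq_mod p with h4 | h4 <;> omega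

theorem TR : TR_stmt := by
  rintro ⟨⟨n, k⟩, ⟨m, g, Z⟩⟩ ht
  obtain ⟨hn1, hk1, hco, c1, c2⟩ := ht
  simp only at hn1 hk1 hco c1 c2 ⊢
  have hn0 : (n : ℤ) ≠ 0 := by exact_mod_cast (by omega : n ≠ 0)
  have hk0 : (k : ℤ) ≠ 0 := by exact_mod_cast (by omega : k ≠ 0)
  have hcop : IsCoprime (n : ℤ) (k : ℤ) := Nat.isCoprime_iff_coprime.2 hco
  have hcn : IsCoprime ((n : ℤ) ^ 2) ((k : ℤ) ^ 2) := hcop.pow
  -- 1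
  have d1 : (n : ℤ) ^ 2 ∣ m * g + Z * (k : ℤ) ^ 2 := by
    apply hcn.dvd_of_dvd_mul_left
    have h1 : (n : ℤ) ^ 2 ∣ Z * (k : ℤ) ^ 4 + m * g * (k : ℤ) ^ 2 - g ^ 2 * (n : ℤ) ^ 2 :=
      (pow_dvd_pow _ (by norm_num)).trans c1
    have h2 : (k : ℤ) ^ 2 * (m * g + Z * (k : ℤ) ^ 2) =
        (Z * (k : ℤ) ^ 4 + m * g * (k : ℤ) ^ 2 - g ^ 2 * (n : ℤ) ^ 2) + g ^ 2 * (n : ℤ) ^ 2 := by ring
    rw [h2]
    exact dvd_add h1 (Dvd.intro_left _ rfl)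
  have e1 : lam ((n, k), (m, g, Z)) * (n : ℤ) ^ 2 = m * g + Z * (k : ℤ) ^ 2 := Int.ediv_mul_cancel d1
  obtain ⟨Λ, hΛ⟩ : ∃ Λ, Λ = lam ((n, k), (m, g, Z)) := ⟨_, rfl⟩
  rw [← hΛ] at e1 ⊢
  -- 2
  have d2 : (k : ℤ) ∣ Z * (n : ℤ) ^ 2 - m ^ 2 := by
    rw [← dvd_neg]
    have : -(Z * (n : ℤ) ^ 2 - m ^ 2) = m ^ 2 - Z * (n : ℤ) ^ 2 := by ring
    rw [this]
    exact c2
  have e2 : (k : ℤ) * RR ((n, k), (m, g, Z)) = Z * (n : ℤ) ^ 2 - m ^ 2 := Int.mul_ediv_cancel' d2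
  obtain ⟨R, hR⟩ : ∃ R, R = RR ((n, k), (m, g, Z)) := ⟨_, rfl⟩
  rw [← hR] at e2 ⊢
  -- 3
  have d3 : (n : ℤ) ∣ g ^ 2 - Λ * (k : ℤ) ^ 2 := by
    have h1 : (n : ℤ) ^ 2 * (n : ℤ) ∣ (n : ℤ) ^ 2 * (g ^ 2 - Λ * (k : ℤ) ^ 2) := by
      have h2 : (n : ℤ) ^ 2 * (g ^ 2 - Λ * (k : ℤ) ^ 2) =
          -(Z * (k : ℤ) ^ 4 + m * g * (k : ℤ) ^ 2 - g ^ 2 * (n : ℤ) ^ 2) := by
        linear_combination (-(k : ℤ) ^ 2) * e1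
      rw [h2, dvd_neg]
      have h3 : (n : ℤ) ^ 2 * (n : ℤ) = (n : ℤ) ^ 3 := by ring
      rw [h3]
      exact c1
    exact (mul_dvd_mul_iff_left (pow_ne_zero 2 hn0)).1 h1
  have e3 : (n : ℤ) * RR' ((n, k), (m, g, Z)) = g ^ 2 - Λ * (k : ℤ) ^ 2 := by
    rw [hΛ] at d3 ⊢
    exact Int.mul_ediv_cancel' d3
  obtain ⟨R', hR'⟩ : ∃ R', R' = RR' ((n, k), (m, g, Z)) := ⟨_, rfl⟩
  rw [← hR'] at e3 ⊢
  -- 7
  have e7 : (n : ℤ) ^ 2 * (Z * g - Λ * m) = (k : ℤ) * (g * R - m * k * Z) := by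
    linear_combination (-m) * e1 - g * e2
  have d5 : (k : ℤ) ∣ Z * g - Λ * m := by
    have h1 : IsCoprime (k : ℤ) ((n : ℤ) ^ 2) := hcop.symm.pow_right
    apply h1.dvd_of_dvd_mul_left
    exact ⟨_, e7⟩
  have d6 : (n : ℤ) ∣ Z * g + Λ * m := by
    have h1 : IsCoprime (n : ℤ) ((k : ℤ) ^ 2) := hcop.pow_right
    apply h1.dvd_of_dvd_mul_left
    refine ⟨Λ * n * g - m * R', ?_⟩
    linear_combination (-g) * e1 + m * e3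
  have e8 : (Z * g - Λ * m) ^ 2 - 4 * Z ^ 2 * Λ * (k : ℤ) ^ 2 =
      (Z * g + Λ * m) ^ 2 - 4 * Z * Λ ^ 2 * (n : ℤ) ^ 2 := by
    linear_combination (4 * Z * Λ) * e1
  have d7 : (k : ℤ) ^ 2 ∣ (Z * g - Λ * m) ^ 2 - 4 * Z ^ 2 * Λ * (k : ℤ) ^ 2 :=
    dvd_sub (pow_dvd_pow_of_dvd d5 2) (Dvd.intro_left _ rfl)
  have d8 : (n : ℤ) ^ 2 ∣ (Z * g - Λ * m) ^ 2 - 4 * Z ^ 2 * Λ * (k : ℤ) ^ 2 := by
    rw [e8]
    exact dvd_sub (pow_dvd_pow_of_dvd d6 2) (Dvd.intro_left _ rfl)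
  have d9 : ((n : ℤ) * k) ^ 2 ∣ (Z * g - Λ * m) ^ 2 - 4 * Z ^ 2 * Λ * (k : ℤ) ^ 2 := by
    rw [mul_pow]
    exact hcn.mul_dvd d8 d7
  have e9 : dis ((n, k), (m, g, Z)) * ((n : ℤ) * k) ^ 2 =
      (Z * g - Λ * m) ^ 2 - 4 * Z ^ 2 * Λ * (k : ℤ) ^ 2 := by
    rw [hΛ] at d9 ⊢
    exact Int.ediv_mul_cancel d9
  obtain ⟨D, hDD⟩ : ∃ D, D = dis ((n, k), (m, g, Z)) := ⟨_, rfl⟩
  rw [← hDD] at e9 ⊢
  refine ⟨e1, e2, e3, ?_, e9, e9.trans e8, e7, d5, d6, ?_⟩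
  · linear_combination (n : ℤ) ^ 2 * e3 - (k : ℤ) ^ 2 * e1
  · obtain ⟨p, hp⟩ := d5
    obtain ⟨r, hr⟩ := d6
    rcases Int.emod_two_eq_zero_or_one (n : ℤ) with h | h
    · have hk : (k : ℤ) % 2 = 1 := by
        rcases Int.emod_two_eq_zero_or_one (k : ℤ) with h' | h'
        · exfalso
          have h1 : 2 ∣ n := by omega
          have h2 : 2 ∣ k := by omega
          have := Nat.dvd_gcd h1 h2
          rw [hco] at this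
          omega
        · exact h'
      apply TR_mod D k r (Z * Λ ^ 2) hk
      have h3 : (n : ℤ) ^ 2 * (D * (k : ℤ) ^ 2) = (n : ℤ) ^ 2 * (r ^ 2 - 4 * (Z * Λ ^ 2)) := by
        have h4 := e9.trans e8
        rw [hr] at h4
        linear_combination h4
      exact mul_left_cancel₀ (pow_ne_zero 2 hn0) h3
    · apply TR_mod D n p (Z ^ 2 * Λ) h
      have h3 : (k : ℤ) ^ 2 * (D * (n : ℤ) ^ 2) = (k : ℤ) ^ 2 * (p ^ 2 - 4 * (Z ^ 2 * Λ)) := by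
        have h4 := e9
        rw [hp] at h4
        linear_combination h4
      exact mul_left_cancel₀ (pow_ne_zero 2 hk0) h3

end Pool.Agent.T5
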