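import Pool.Agent.helper11.T5.NumSet

set_option autoImplicit false

/-!
# T5, row NUMC
-/

namespace Pool.Agent.T5

open Finset NumberField Pool.Agent.helper3.FT Pool.Agent.helper47.RA

theorem NUMC_lower {c₀ E x n : ℝ} (hc : 0 < c₀) (hE : c₀⁻¹ ≤ E) (hn : 0 ≤ n) (h : c₀ * x ≤ n) : x ≤ E * n := by
  have h1 : x ≤ c₀⁻¹ * n := by
    rw [← mul_le_mul_iff_right₀ hc, ← mul_assoc, mul_inv_cancel₀ hc.ne', one_mul]
    exact h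
  exact h1.trans (mul_le_mul_of_nonneg_right hE hn)

theorem NUMC_hbounds (E p q w Y : ℝ) (N₁ K₁ : ℕ) (hE : 1 ≤ E) (hp : 0 < p) (hq : 0 < q) (hw : 0 < w)
    (hY : Y = p ^ 2)
    (hN1 : p ^ 2 * q / w ≤ E * N₁) (hN2 : (N₁ : ℝ) ≤ E * (p ^ 2 * q / w))
    (hK1 : p * q ^ 2 / w ≤ E * K₁) (hK2 : (K₁ : ℝ) ≤ E * (p * q ^ 2 / w)) :
    (N₁ : ℝ) ^ 3 * K₁ / Y ≤ E ^ 4 * (p ^ 5 * q ^ 5 / w ^ 4) ∧
      p ^ 5 * q ^ 5 / w ^ 4 ≤ E ^ 4 * ((N₁ : ℝ) ^ 3 * K₁ / Y) := by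
  have hE0 : 0 < E := by linarith
  constructor
  · rw [hY, div_le_iff₀ (by positivity)]
    have h1 : (N₁ : ℝ) ^ 3 ≤ (E * (p ^ 2 * q / w)) ^ 3 := by gcongr
    have h2 := mul_le_mul h1 hK2 (by positivity) (by positivity)
    refine h2.trans (le_of_eq ?_)
    field_simp
  · have h1 : (p ^ 2 * q / w) ^ 3 ≤ (E * N₁) ^ 3 := by gcongr
    have h2 := mul_le_mul h1 hK1 (by positivity) (by positivity)
    have h3 : p ^ 5 * q ^ 5 / w ^ 4 = (p ^ 2 * q / w) ^ 3 * (p * q ^ 2 / w) / p ^ 2 := by field_simp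
    have h4 : E ^ 4 * ((N₁ : ℝ) ^ 3 * K₁ / Y) = (E * N₁) ^ 3 * (E * K₁) / p ^ 2 := by rw [hY]; ring
    rw [h3, h4]
    exact div_le_div_of_nonneg_right h2 (by positivity)

theorem NUMC : NUMC_stmt := by
  intro δ c₀ C₀ hδ hδ1 hc₀ hC₀
  obtain ⟨E, hEd⟩ : ∃ E, E = max C₀ c₀⁻¹ := ⟨_, rfl⟩
  have hEC : C₀ ≤ E := hEd ▸ le_max_left _ _
  have hEc : c₀⁻¹ ≤ E := hEd ▸ le_max_right _ _
  have hE1 : 1 ≤ E := hC₀.trans hEC
  have hE0 : 0 < E := by linarith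
  obtain ⟨N₀, hN₀1, hN₀⟩ := NUM_large (8 * (151 * E ^ 10) ^ 2 * E ^ 7 * E ^ 4 + 151 * E ^ 10) δ hδ
  refine ⟨N₀, ?_⟩
  intro N Y Y₂ hN hR N₁ K₁ M G H e y hBlk hM1 hM2 hG1 hG2 he1 he hy1 hy hH1 hH
  have hN1 : 1 ≤ N := hN₀1.trans hN
  have hN0 : 0 < N := by linarith
  obtain ⟨p, q, w, m, hp, hq, hw, hm, hYp, hYq, hpq, hA', hB, hX, hXA, h48, eN, eK, eM, eG, eR, hVA⟩ :=
    NUM_set δ N Y Y₂ hδ hδ1 hN1 hR
  obtain ⟨hn1, hn2, hk1, hk2⟩ := hBlk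
  rw [eN] at hn1 hn2
  rw [eK] at hk1 hk2
  rw [eM] at hM1 hM2
  rw [eG] at hG1 hG2
  have a1 := NUMC_lower hc₀ hEc (Nat.cast_nonneg N₁) hn1
  have a2 : (N₁ : ℝ) ≤ E * (p ^ 2 * q / w) := hn2.trans (mul_le_mul_of_nonneg_right hEC (by positivity))
  have a3 := NUMC_lower hc₀ hEc (Nat.cast_nonneg K₁) hk1
  have a4 : (K₁ : ℝ) ≤ E * (p * q ^ 2 / w) := hk2.trans (mul_le_mul_of_nonneg_right hEC (by positivity))
  have a5 := NUMC_lower hc₀ hEc (Nat.cast_nonneg M) hM1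
  have a6 : (M : ℝ) ≤ E * (p ^ 3 * q / w) := hM2.trans (mul_le_mul_of_nonneg_right hEC (by positivity))
  have a7 := NUMC_lower hc₀ hEc (Nat.cast_nonneg G) hG1
  have a8 : (G : ℝ) ≤ E * (p * q ^ 3 / w) := hG2.trans (mul_le_mul_of_nonneg_right hEC (by positivity))
  obtain ⟨hh1, hh2⟩ := NUMC_hbounds E p q w Y N₁ K₁ hE1 hp hq hw hYp a1 a2 a3 a4
  obtain ⟨L, hL⟩ : ∃ L, L = N ^ (δ / 4000) := ⟨_, rfl⟩
  have hL1 : 1 ≤ L := by rw [hL]; exact Real.one_le_rpow hN1 (by positivity)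
  rw [← hL] at he hH
  obtain ⟨a, hS, ha, hb⟩ := NUM_gen E L m p q w N₁ K₁ M G H e 1 1 y hE1 hL1 hm hp hq hw le_rfl le_rfl he1 he hy1
    a1 a2 a3 a4 (by simpa using a5) (by simpa using a7) (by simpa using a6) (by simpa using a8)
    (by
      refine hH.trans ?_
      have := mul_le_mul_of_nonneg_left hh1 (show 0 ≤ L by linarith)
      refine this.trans (le_of_eq ?_)
      push_cast
      ring) hpq hA' hB hX hXA h48
  have hbig := hN₀ N hN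
  have hC1 : 8 * (151 * E ^ 10) ^ 2 * E ^ 7 * E ^ 4 ≤ N ^ (δ / 400) :=
    le_trans (le_add_of_nonneg_right (by positivity)) hbig
  have hC2 : 151 * E ^ 10 ≤ N ^ (δ / 400) :=
    le_trans (le_add_of_nonneg_left (by positivity)) hbig
  refine ⟨a, hS, ?_, ?_⟩
  · intro i
    refine (ha i).trans ?_
    have f1 : 151 * E ^ 10 * L * (((1 : ℕ) : ℝ) * ((1 : ℕ) : ℝ)) * (q ^ 5 / w ^ 2) ≤
        N ^ (δ / 400) * N ^ (δ / 4000) * 1 * N ^ (0.26 : ℝ) := by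
      rw [← hL]
      push_cast
      rw [one_mul]
      gcongr
    refine f1.trans ?_
    rw [mul_one, ← Real.rpow_add hN0, ← Real.rpow_add hN0]
    conv_rhs => rw [← Real.rpow_one N]
    apply Real.rpow_le_rpow_of_exponent_le hN1
    linarith
  · refine hb.trans ?_
    rw [eR]
    have hyr : (1 : ℝ) ≤ y := by exact_mod_cast hy1
    obtain ⟨r, hr⟩ : ∃ r, r = 1 + √((y : ℝ) * (p ^ 2 * q ^ 2 / w ^ 2)) := ⟨_, rfl⟩
    have hr0 : 0 < r := by rw [hr]; positivity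
    have hr' : 1 + √(((1 : ℕ) : ℝ) * ((1 : ℕ) : ℝ) * y * (p ^ 2 * q ^ 2 / w ^ 2)) = r := by
      rw [hr]; push_cast; rw [one_mul, one_mul]
    rw [hr', ← hr]
    have hL3 : L ^ 3 = N ^ (3 * δ / 4000) := by
      rw [hL, ← Real.rpow_natCast, ← Real.rpow_mul hN0.le]
      congr 1
      push_cast
      ring
    have hmain : 8 * (151 * E ^ 10) ^ 2 * E ^ 7 * L ^ 3 * (p ^ 5 * q ^ 5 / w ^ 4) ≤
        N ^ (δ / 100) * ((N₁ : ℝ) ^ 3 * K₁ / Y) := by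
      have f1 : 8 * (151 * E ^ 10) ^ 2 * E ^ 7 * L ^ 3 * (p ^ 5 * q ^ 5 / w ^ 4) ≤
          8 * (151 * E ^ 10) ^ 2 * E ^ 7 * L ^ 3 * (E ^ 4 * ((N₁ : ℝ) ^ 3 * K₁ / Y)) :=
        mul_le_mul_of_nonneg_left hh2 (by positivity)
      refine f1.trans ?_
      have hY0 : 0 < Y := by rw [hYp]; positivity
      have f2 : 8 * (151 * E ^ 10) ^ 2 * E ^ 7 * L ^ 3 * (E ^ 4 * ((N₁ : ℝ) ^ 3 * K₁ / Y)) =
          ((8 * (151 * E ^ 10) ^ 2 * E ^ 7 * E ^ 4) * L ^ 3) * ((N₁ : ℝ) ^ 3 * K₁ / Y) := by ring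
      rw [f2]
      apply mul_le_mul_of_nonneg_right _ (by positivity)
      have f3 := mul_le_mul_of_nonneg_right hC1 (show 0 ≤ L ^ 3 by positivity)
      refine f3.trans ?_
      rw [hL3, ← Real.rpow_add hN0]
      apply Real.rpow_le_rpow_of_exponent_le hN1
      linarith
    have f4 : 8 * (151 * E ^ 10) ^ 2 * E ^ 7 * L ^ 3 * (((1 : ℕ) : ℝ) * ((1 : ℕ) : ℝ)) * (p ^ 5 * q ^ 5 / w ^ 4) * m *
          r * (p ^ 5 * q ^ 5 / w ^ 3) / y =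
        (8 * (151 * E ^ 10) ^ 2 * E ^ 7 * L ^ 3 * (p ^ 5 * q ^ 5 / w ^ 4)) *
          (m * r * (p ^ 5 * q ^ 5 / w ^ 3) / y) := by push_cast; ring
    have f5 : N ^ (δ / 100) * m * (p ^ 3 * q ^ 3 / w ^ 3) * r * ((N₁ : ℝ) ^ 3 * K₁ / Y) * (Y * Y₂) / y =
        (N ^ (δ / 100) * ((N₁ : ℝ) ^ 3 * K₁ / Y)) * (m * r * (p ^ 5 * q ^ 5 / w ^ 3) / y) := by
      rw [hYp, hYq]
      ring
    rw [f4, f5]
    exact mul_le_mul_of_nonneg_right hmain (by positivity)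

end Pool.Agent.T5
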