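import Pool.Agent.helper11.T5.NUMC

set_option autoImplicit false

/-!
# T5, row NUMT
-/

namespace Pool.Agent.T5

open Finset NumberField Pool.Agent.helper3.FT Pool.Agent.helper47.RA

theorem NUMT : NUMT_stmt := by
  intro δ c₀ C₀ hδ hδ1 hc₀ hC₀
  obtain ⟨B, hBd⟩ : ∃ B, B = max C₀ c₀⁻¹ := ⟨_, rfl⟩
  have hBC : C₀ ≤ B := hBd ▸ le_max_left _ _
  have hBc : c₀⁻¹ ≤ B := hBd ▸ le_max_right _ _
  have hB1 : 1 ≤ B := hC₀.trans hBC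
  have hB0 : 0 < B := by linarith
  obtain ⟨E, hEd⟩ : ∃ E, E = B ^ 2 := ⟨_, rfl⟩
  have hBE : B ≤ E := by rw [hEd]; nlinarith
  have hE1 : 1 ≤ E := hB1.trans hBE
  have hE0 : 0 < E := by linarith
  obtain ⟨N₀, hN₀1, hN₀⟩ := NUM_large (8 * (151 * E ^ 10) ^ 2 * E ^ 7 * E ^ 4 + 151 * E ^ 10) δ hδ
  refine ⟨N₀, ?_⟩
  intro N Y Y₂ hN hR N₁ K₁ M G H Q q₁ q₂ hBlk hQ1 hQ hQQ _ hM1 hM2 hG1 hG2 hH1 hH
  have hN1 : 1 ≤ N := hN₀1.trans hN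
  have hN0 : 0 < N := by linarith
  have hq₁ : 1 ≤ q₁ := Nat.pos_of_ne_zero fun h => by rw [h, zero_mul] at hQQ; omega
  have hq₂ : 1 ≤ q₂ := Nat.pos_of_ne_zero fun h => by rw [h, mul_zero] at hQQ; omega
  have hQr : (q₁ : ℝ) * q₂ = Q := by rw [hQQ]; push_cast; ring
  obtain ⟨p, q, w, m, hp, hq, hw, hm, hYp, hYq, hpq, hA', hB, hX, hXA, h48, eN, eK, eM, eG, eR, hVA⟩ :=
    NUM_set δ N Y Y₂ hδ hδ1 hN1 hR
  obtain ⟨hn1, hn2, hk1, hk2⟩ := hBlk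
  rw [eN] at hn1 hn2
  rw [eK] at hk1 hk2
  rw [eM] at hM1 hM2
  rw [eG] at hG1 hG2
  have b1 := NUMC_lower hc₀ hBc (Nat.cast_nonneg N₁) hn1
  have b2 : (N₁ : ℝ) ≤ B * (p ^ 2 * q / w) := hn2.trans (mul_le_mul_of_nonneg_right hBC (by positivity))
  have b3 := NUMC_lower hc₀ hBc (Nat.cast_nonneg K₁) hk1
  have b4 : (K₁ : ℝ) ≤ B * (p * q ^ 2 / w) := hk2.trans (mul_le_mul_of_nonneg_right hBC (by positivity))
  obtain ⟨hh1, -⟩ := NUMC_hbounds B p q w Y N₁ K₁ hB1 hp hq hw hYp b1 b2 b3 b4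
  have hEc : c₀⁻¹ ≤ E := hBc.trans hBE
  have hEC : C₀ ≤ E := hBC.trans hBE
  have a1 := NUMC_lower hc₀ hEc (Nat.cast_nonneg N₁) hn1
  have a2 : (N₁ : ℝ) ≤ E * (p ^ 2 * q / w) := hn2.trans (mul_le_mul_of_nonneg_right hEC (by positivity))
  have a3 := NUMC_lower hc₀ hEc (Nat.cast_nonneg K₁) hk1
  have a4 : (K₁ : ℝ) ≤ E * (p * q ^ 2 / w) := hk2.trans (mul_le_mul_of_nonneg_right hEC (by positivity))
  have a5 := NUMC_lower hc₀ hEc (show (0 : ℝ) ≤ q₁ * M by positivity) hM1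
  have a6 : (q₁ * M : ℝ) ≤ E * (p ^ 3 * q / w) := hM2.trans (mul_le_mul_of_nonneg_right hEC (by positivity))
  have a7 := NUMC_lower hc₀ hEc (show (0 : ℝ) ≤ q₂ * G by positivity) hG1
  have a8 : (q₂ * G : ℝ) ≤ E * (p * q ^ 3 / w) := hG2.trans (mul_le_mul_of_nonneg_right hEC (by positivity))
  obtain ⟨-, hh2⟩ := NUMC_hbounds E p q w Y N₁ K₁ hE1 hp hq hw hYp a1 a2 a3 a4
  obtain ⟨a, hS, ha, hb⟩ := NUM_gen E 1 m p q w N₁ K₁ M G H 1 q₁ q₂ 1 hE1 le_rfl hm hp hq hw hq₁ hq₂ le_rfl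
    (by norm_num) le_rfl a1 a2 a3 a4 a5 a7 a6 a8
    (by
      refine hH.trans ?_
      have f0 : 0 ≤ C₀ * (Q : ℝ) := by positivity
      have f1 := mul_le_mul_of_nonneg_left hh1 f0
      refine f1.trans ?_
      rw [hQr]
      have f2 : C₀ * (Q : ℝ) * (B ^ 4 * (p ^ 5 * q ^ 5 / w ^ 4)) = (C₀ * B ^ 4) * (Q * (p ^ 5 * q ^ 5 / w ^ 4)) := by
        ring
      have f3 : E ^ 4 * (1 * (Q : ℝ) * (p ^ 5 * q ^ 5 / w ^ 4)) = E ^ 4 * (Q * (p ^ 5 * q ^ 5 / w ^ 4)) := by ring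
      rw [f2, f3]
      apply mul_le_mul_of_nonneg_right _ (by positivity)
      calc C₀ * B ^ 4 ≤ B * B ^ 4 := mul_le_mul_of_nonneg_right hBC (by positivity)
        _ = B ^ 5 := by ring
        _ ≤ B ^ 8 := pow_le_pow_right₀ hB1 (by norm_num)
        _ = E ^ 4 := by rw [hEd]; ring) hpq hA' hB hX hXA h48
  have hbig := hN₀ N hN
  have hC1 : 8 * (151 * E ^ 10) ^ 2 * E ^ 7 * E ^ 4 ≤ N ^ (δ / 400) :=
    le_trans (le_add_of_nonneg_right (by positivity)) hbig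
  have hC2 : 151 * E ^ 10 ≤ N ^ (δ / 400) :=
    le_trans (le_add_of_nonneg_left (by positivity)) hbig
  rw [hQr] at ha hb
  refine ⟨a, hS, ?_, ?_⟩
  · intro i
    refine (ha i).trans ?_
    have f1 : 151 * E ^ 10 * 1 * (Q : ℝ) * (q ^ 5 / w ^ 2) ≤
        N ^ (δ / 400) * 1 * N ^ (1 / 8 : ℝ) * N ^ (0.26 : ℝ) := by
      gcongr
    refine f1.trans ?_
    rw [mul_one, ← Real.rpow_add hN0, ← Real.rpow_add hN0]
    conv_rhs => rw [← Real.rpow_one N]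
    apply Real.rpow_le_rpow_of_exponent_le hN1
    linarith
  · refine hb.trans ?_
    rw [eR]
    obtain ⟨r, hr⟩ : ∃ r, r = 1 + √((Q : ℝ) * (p ^ 2 * q ^ 2 / w ^ 2)) := ⟨_, rfl⟩
    have hr0 : 0 < r := by rw [hr]; positivity
    have hr' : 1 + √((Q : ℝ) * ((1 : ℕ) : ℝ) * (p ^ 2 * q ^ 2 / w ^ 2)) = r := by
      rw [hr]; push_cast; rw [mul_one]
    rw [hr', ← hr]
    have hmain : 8 * (151 * E ^ 10) ^ 2 * E ^ 7 * (p ^ 5 * q ^ 5 / w ^ 4) ≤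
        N ^ (δ / 100) * ((N₁ : ℝ) ^ 3 * K₁ / Y) := by
      have f1 : 8 * (151 * E ^ 10) ^ 2 * E ^ 7 * (p ^ 5 * q ^ 5 / w ^ 4) ≤
          8 * (151 * E ^ 10) ^ 2 * E ^ 7 * (E ^ 4 * ((N₁ : ℝ) ^ 3 * K₁ / Y)) :=
        mul_le_mul_of_nonneg_left hh2 (by positivity)
      refine f1.trans ?_
      have hY0 : 0 < Y := by rw [hYp]; positivity
      have f2 : 8 * (151 * E ^ 10) ^ 2 * E ^ 7 * (E ^ 4 * ((N₁ : ℝ) ^ 3 * K₁ / Y)) =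
          (8 * (151 * E ^ 10) ^ 2 * E ^ 7 * E ^ 4) * ((N₁ : ℝ) ^ 3 * K₁ / Y) := by ring
      rw [f2]
      apply mul_le_mul_of_nonneg_right _ (by positivity)
      refine hC1.trans ?_
      apply Real.rpow_le_rpow_of_exponent_le hN1
      linarith
    have f4 : 8 * (151 * E ^ 10) ^ 2 * E ^ 7 * 1 ^ 3 * (Q : ℝ) * (p ^ 5 * q ^ 5 / w ^ 4) * m *
          r * (p ^ 5 * q ^ 5 / w ^ 3) / ((1 : ℕ) : ℝ) =
        (8 * (151 * E ^ 10) ^ 2 * E ^ 7 * (p ^ 5 * q ^ 5 / w ^ 4)) *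
          (Q * (m * r * (p ^ 5 * q ^ 5 / w ^ 3))) := by push_cast; ring
    have f5 : N ^ (δ / 100) * m * (p ^ 3 * q ^ 3 / w ^ 3) * r * ((Q : ℝ) * ((N₁ : ℝ) ^ 3 * K₁ / Y)) * (Y * Y₂) =
        (N ^ (δ / 100) * ((N₁ : ℝ) ^ 3 * K₁ / Y)) * (Q * (m * r * (p ^ 5 * q ^ 5 / w ^ 3))) := by
      rw [hYp, hYq]
      ring
    rw [f4, f5]
    exact mul_le_mul_of_nonneg_right hmain (by positivity)

end Pool.Agent.T5
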