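import Pool.Agent.helper95.T5.SpecN
import Pool.Agent.helper3.FT.G1
import Pool.Agent.helper65.FT.S
import Pool.Agent.helper33.LT.RK

set_option autoImplicit false

/-!
# T5, row SS
-/

namespace Pool.Agent.T5

open Finset NumberField Pool.Agent.helper3.FT Pool.Agent.helper47.RA

theorem SS_term (c d d₁ d₂ y : ℕ) (hd : d = d₁ * d₂) (hd0 : 1 ≤ d) (hco : Nat.Coprime d₂ (5 * c * y)) :
    (Nat.gcd (yc c d) y : ℝ) / (yc c d : ℝ) ≤ 1 / (yy d₂ : ℝ) := by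
  have h1 : yy d₂ ∣ yc c d := by
    unfold yy yc
    refine Finset.prod_dvd_prod_of_subset _ _ _ ?_
    intro p hp
    have hp' := Finset.mem_of_mem_erase hp
    have hpp := Nat.prime_of_mem_primeFactors hp'
    have hpd := Nat.dvd_of_mem_primeFactors hp'
    rw [Finset.mem_filter]
    refine ⟨Nat.mem_primeFactors.2 ⟨hpp, hd ▸ Dvd.dvd.mul_left hpd _, by omega⟩, fun h5 => ?_⟩
    have h2 : p ∣ Nat.gcd d₂ (5 * c * y) := Nat.dvd_gcd hpd (Dvd.dvd.mul_right h5 _)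
    rw [hco] at h2
    exact hpp.one_lt.ne' (Nat.dvd_one.1 h2)
  have h2 : Nat.gcd (yc c d) y ∣ yc c d := Nat.gcd_dvd_left _ _
  have h3 : Nat.Coprime (Nat.gcd (yc c d) y) (yy d₂) := by
    have h4 : Nat.Coprime y d₂ := (Nat.Coprime.coprime_dvd_right (Dvd.intro_left _ rfl) hco).symm
    exact Nat.Coprime.coprime_dvd_right (yy_dvd d₂) (Nat.Coprime.coprime_dvd_left (Nat.gcd_dvd_right _ _) h4)
  have h4 : Nat.gcd (yc c d) y * yy d₂ ∣ yc c d := h3.mul_dvd_of_dvd_of_dvd h2 h1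
  have hpos : 0 < yc c d := by
    unfold yc
    refine Finset.prod_pos fun p hp => ?_
    exact (Nat.prime_of_mem_primeFactors (Finset.mem_of_mem_filter p hp)).pos
  have h5 := Nat.le_of_dvd hpos h4
  have h6 : (0 : ℝ) < yy d₂ := by exact_mod_cast S_yy_pos d₂
  have h7 : (0 : ℝ) < yc c d := by exact_mod_cast hpos
  rw [div_le_div_iff₀ h7 h6, one_mul]
  exact_mod_cast h5

theorem SS : SS_stmt := by
  classical
  intro ε hε
  obtain ⟨C1, hC1, h1⟩ := Pool.Agent.helper28.LT.card_smooth (ε / 4) (by positivity)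
  obtain ⟨C2, hC2, h2⟩ := yy_sum (ε / 4) (by positivity)
  have h5 : (1 : ℝ) ≤ (5 : ℝ) ^ (ε / 4) := Real.one_le_rpow (by norm_num) (by positivity)
  refine ⟨C1 * C2 * (5 : ℝ) ^ (ε / 4), ?_, ?_⟩
  · have : 1 ≤ C1 * C2 := by nlinarith
    nlinarith
  intro T H c y hH hHT hc hcT hy hyT _
  have hT1 : (1 : ℝ) ≤ T := by exact_mod_cast hH.trans hHT
  have hT0 : (0 : ℝ) < T := by linarith
  have hH0 : (0 : ℝ) ≤ H := Nat.cast_nonneg _
  have hHT' : (H : ℝ) ≤ T := by exact_mod_cast hHT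
  -- the map
  have hex : ∀ d : ℕ, ∃ p : ℕ × ℕ, 1 ≤ d → d = p.1 * p.2 ∧ Nat.Coprime p.2 (5 * c * y) ∧
      ∀ q : ℕ, q.Prime → q ∣ p.1 → q ∣ 5 * c * y := by
    intro d
    by_cases hd : 1 ≤ d
    · obtain ⟨d₁, d₂, e1, e2, e3⟩ := split_part (5 * c * y) d hd
      exact ⟨(d₁, d₂), fun _ => ⟨e1, e2, e3⟩⟩
    · exact ⟨(0, 0), fun h => absurd h hd⟩
  choose φ hφ using hex
  set W := (Icc 1 H).filter (fun z => ∀ p : ℕ, p.Prime → p ∣ z → p ∣ 5 * c * y) with hW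
  have hmem : ∀ d ∈ Icc 1 H, φ d ∈ W ×ˢ Icc 1 H := by
    intro d hd
    rw [Finset.mem_Icc] at hd
    obtain ⟨e1, e2, e3⟩ := hφ d hd.1
    have p1 : 1 ≤ (φ d).1 := by
      rcases Nat.eq_zero_or_pos (φ d).1 with h0 | h0
      · rw [h0, zero_mul] at e1; omega
      · exact h0
    have p2 : 1 ≤ (φ d).2 := by
      rcases Nat.eq_zero_or_pos (φ d).2 with h0 | h0
      · rw [h0, mul_zero] at e1; omega
      · exact h0
    have q1 : (φ d).1 ≤ d := by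
      calc (φ d).1 = (φ d).1 * 1 := (mul_one _).symm
        _ ≤ (φ d).1 * (φ d).2 := Nat.mul_le_mul_left _ p2
        _ = d := e1.symm
    have q2 : (φ d).2 ≤ d := by
      calc (φ d).2 = 1 * (φ d).2 := (one_mul _).symm
        _ ≤ (φ d).1 * (φ d).2 := Nat.mul_le_mul_right _ p1
        _ = d := e1.symm
    rw [Finset.mem_product, hW, Finset.mem_filter, Finset.mem_Icc, Finset.mem_Icc]
    exact ⟨⟨⟨p1, by omega⟩, e3⟩, p2, by omega⟩
  have hinj : Set.InjOn φ (Icc 1 H : Finset ℕ) := by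
    intro a ha b hb hab
    rw [Finset.mem_coe, Finset.mem_Icc] at ha hb
    rw [(hφ a ha.1).1, (hφ b hb.1).1, hab]
  have hsum : ∑ d ∈ Icc 1 H, (Nat.gcd (yc c d) y : ℝ) / (yc c d : ℝ) ≤
      (W.card : ℝ) * ∑ d ∈ Icc 1 H, (1 : ℝ) / (yy d : ℝ) := by
    calc ∑ d ∈ Icc 1 H, (Nat.gcd (yc c d) y : ℝ) / (yc c d : ℝ)
        ≤ ∑ d ∈ Icc 1 H, (1 : ℝ) / (yy (φ d).2 : ℝ) := by
          refine Finset.sum_le_sum fun d hd => ?_
          rw [Finset.mem_Icc] at hd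
          obtain ⟨e1, e2, -⟩ := hφ d hd.1
          exact SS_term c d _ _ y e1 hd.1 e2
      _ = ∑ p ∈ (Icc 1 H).image φ, (1 : ℝ) / (yy p.2 : ℝ) := by
          rw [Finset.sum_image hinj]
      _ ≤ ∑ p ∈ W ×ˢ Icc 1 H, (1 : ℝ) / (yy p.2 : ℝ) := by
          refine Finset.sum_le_sum_of_subset_of_nonneg ?_ fun p _ _ => by positivity
          intro p hp
          obtain ⟨d, hd, rfl⟩ := Finset.mem_image.1 hp
          exact hmem d hd
      _ = (W.card : ℝ) * ∑ d ∈ Icc 1 H, (1 : ℝ) / (yy d : ℝ) := by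
          rw [Finset.sum_product]
          show ∑ _x ∈ W, (∑ y ∈ Icc 1 H, (1 : ℝ) / (yy y : ℝ)) = _
          rw [Finset.sum_const, nsmul_eq_mul]
  have hf : 1 ≤ 5 * c * y := by
    have : 0 < 5 * c * y := by positivity
    omega
  have hW1 := h1 H (5 * c * y) hH hf
  have hS := h2 H hH
  have hfT : ((5 * c * y : ℕ) : ℝ) ≤ 5 * (T : ℝ) ^ (2 : ℝ) := by
    have a1 : (c : ℝ) ≤ T := by exact_mod_cast hcT
    have a2 : (y : ℝ) ≤ T := by exact_mod_cast hyT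
    push_cast
    rw [Real.rpow_two]
    have a3 : (c : ℝ) * y ≤ T * T := mul_le_mul a1 a2 (Nat.cast_nonneg _) hT0.le
    nlinarith
  have hW2 : (W.card : ℝ) ≤ C1 * (T : ℝ) ^ (ε / 4) * ((5 : ℝ) ^ (ε / 4) * (T : ℝ) ^ (ε / 2)) := by
    refine hW1.trans ?_
    have b1 : (H : ℝ) ^ (ε / 4) ≤ (T : ℝ) ^ (ε / 4) := Real.rpow_le_rpow hH0 hHT' (by positivity)
    have b2 : ((5 * c * y : ℕ) : ℝ) ^ (ε / 4) ≤ (5 : ℝ) ^ (ε / 4) * (T : ℝ) ^ (ε / 2) := by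
      calc ((5 * c * y : ℕ) : ℝ) ^ (ε / 4) ≤ (5 * (T : ℝ) ^ (2 : ℝ)) ^ (ε / 4) :=
            Real.rpow_le_rpow (Nat.cast_nonneg _) hfT (by positivity)
        _ = (5 : ℝ) ^ (ε / 4) * (T : ℝ) ^ (ε / 2) := by
            rw [Real.mul_rpow (by norm_num) (by positivity), ← Real.rpow_mul hT0.le]
            congr 2
            ring
    have c1 : (0 : ℝ) ≤ C1 := by linarith
    gcongr
  have hS2 : ∑ d ∈ Icc 1 H, (1 : ℝ) / (yy d : ℝ) ≤ C2 * (T : ℝ) ^ (ε / 4) := by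
    refine hS.trans ?_
    have b1 : (H : ℝ) ^ (ε / 4) ≤ (T : ℝ) ^ (ε / 4) := Real.rpow_le_rpow hH0 hHT' (by positivity)
    have c1 : (0 : ℝ) ≤ C2 := by linarith
    gcongr
  have hS0 : 0 ≤ ∑ d ∈ Icc 1 H, (1 : ℝ) / (yy d : ℝ) := Finset.sum_nonneg fun d _ => by positivity
  have c1 : (0 : ℝ) ≤ C1 := by linarith
  have hpow : (T : ℝ) ^ (ε / 4) * (T : ℝ) ^ (ε / 2) * (T : ℝ) ^ (ε / 4) = (T : ℝ) ^ ε := by
    rw [← Real.rpow_add hT0, ← Real.rpow_add hT0]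
    congr 1
    ring
  refine hsum.trans ((mul_le_mul hW2 hS2 hS0 (by positivity)).trans (le_of_eq ?_))
  calc C1 * (T : ℝ) ^ (ε / 4) * ((5 : ℝ) ^ (ε / 4) * (T : ℝ) ^ (ε / 2)) * (C2 * (T : ℝ) ^ (ε / 4))
      = C1 * C2 * (5 : ℝ) ^ (ε / 4) * ((T : ℝ) ^ (ε / 4) * (T : ℝ) ^ (ε / 2) * (T : ℝ) ^ (ε / 4)) := by ring
    _ = C1 * C2 * (5 : ℝ) ^ (ε / 4) * (T : ℝ) ^ ε := by rw [hpow]

end Pool.Agent.T5
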