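import Pool.Agent.helper95.T5.SpecE

set_option autoImplicit false

/-!
# T5, row SWP
-/

namespace Pool.Agent.T5

open Finset NumberField Pool.Agent.helper3.FT Pool.Agent.helper47.RA

theorem SWP (hTR : TR_stmt) : SWP_stmt := by
  constructor
  · rintro t ht
    obtain ⟨e1, e2, e3, e4, e5, e6, -, -, -, -⟩ := hTR t ht
    obtain ⟨hn1, hk1, hco, -, -⟩ := ht
    have hn0 : (t.1.1 : ℤ) ≠ 0 := by exact_mod_cast (by omega : t.1.1 ≠ 0)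
    have hk0 : (t.1.2 : ℤ) ≠ 0 := by exact_mod_cast (by omega : t.1.2 ≠ 0)
    obtain ⟨⟨n, k⟩, ⟨m, g, Z⟩⟩ := t
    simp only at *
    obtain ⟨Λ, hΛ⟩ : ∃ Λ, Λ = lam ((n, k), (m, g, Z)) := ⟨_, rfl⟩
    obtain ⟨R, hR⟩ : ∃ R, R = RR ((n, k), (m, g, Z)) := ⟨_, rfl⟩
    obtain ⟨R', hR'⟩ : ∃ R', R' = RR' ((n, k), (m, g, Z)) := ⟨_, rfl⟩
    obtain ⟨D, hD⟩ : ∃ D, D = dis ((n, k), (m, g, Z)) := ⟨_, rfl⟩
    rw [← hΛ] at e1 e3 e5 e6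
    rw [← hR] at e2
    rw [← hR'] at e3
    rw [← hD] at e5 e6
    have hs : swp ((n, k), (m, g, Z)) = ((k, n), (g, -m, Λ)) := by rw [hΛ]; rfl
    rw [hs, ← hD, ← hR']
    have hl : lam ((k, n), (g, -m, Λ)) = Z := by
      have h1 : (g * (-m) + Λ * (n : ℤ) ^ 2) = Z * (k : ℤ) ^ 2 := by rw [e1]; ring
      show (g * (-m) + Λ * (n : ℤ) ^ 2) / (k : ℤ) ^ 2 = Z
      rw [h1]
      exact Int.mul_ediv_cancel _ (pow_ne_zero 2 hk0)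
    refine ⟨⟨hk1, hn1, hco.symm, ?_, ?_⟩, hl, ?_, ?_⟩
    · show (k : ℤ) ^ 3 ∣ Λ * (n : ℤ) ^ 4 + g * (-m) * (n : ℤ) ^ 2 - (-m) ^ 2 * (k : ℤ) ^ 2
      refine ⟨R, ?_⟩
      linear_combination (n : ℤ) ^ 2 * e1 - (k : ℤ) ^ 2 * e2
    · show (n : ℤ) ∣ g ^ 2 - Λ * (k : ℤ) ^ 2
      exact ⟨R', e3.symm⟩
    · show ((Λ * (-m) - lam ((k, n), (g, -m, Λ)) * g) ^ 2 -
        4 * Λ ^ 2 * lam ((k, n), (g, -m, Λ)) * (n : ℤ) ^ 2) / ((k : ℤ) * n) ^ 2 = D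
      rw [hl]
      have h1 : (Λ * (-m) - Z * g) ^ 2 - 4 * Λ ^ 2 * Z * (n : ℤ) ^ 2 = D * ((k : ℤ) * n) ^ 2 := by
        linear_combination (-1 : ℤ) * e6
      rw [h1]
      exact Int.mul_ediv_cancel _ (pow_ne_zero 2 (mul_ne_zero hk0 hn0))
    · show (Λ * (k : ℤ) ^ 2 - g ^ 2) / (n : ℤ) = -R'
      have h1 : Λ * (k : ℤ) ^ 2 - g ^ 2 = -R' * (n : ℤ) := by
        linear_combination e3
      rw [h1]
      exact Int.mul_ediv_cancel _ hn0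
  · rintro ⟨⟨n, k⟩, ⟨m, g, Z⟩⟩ ⟨⟨n', k'⟩, ⟨m', g', Z'⟩⟩ ht ht' h
    obtain ⟨e1, -⟩ := hTR _ ht
    obtain ⟨e1', -⟩ := hTR _ ht'
    obtain ⟨hn1, hk1, -, -, -⟩ := ht
    simp only at e1 e1' hn1 hk1
    have hk0 : (k : ℤ) ≠ 0 := by exact_mod_cast (by omega : k ≠ 0)
    unfold swp at h
    simp only [Prod.mk.injEq, neg_inj] at h
    obtain ⟨⟨h1, h2⟩, h3, h4, h5⟩ := h
    rw [← h5] at e1'
    subst h1 h2 h3 h4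
    have h6 : Z * (k : ℤ) ^ 2 = Z' * (k : ℤ) ^ 2 := by linarith
    have h7 : Z = Z' := mul_right_cancel₀ (pow_ne_zero 2 hk0) h6
    rw [h7]

end Pool.Agent.T5
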