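import Pool.Agent.helper3.T5.SpecA

set_option autoImplicit false

/-!
# T5, row ALC1
-/

namespace Pool.Agent.T5

open Finset NumberField Pool.Agent.helper3.FT Pool.Agent.helper47.RA

theorem ALC1 (hARAM : ARAM_stmt) : ALC1_stmt := by
  intro K _ _ Q a α γ d t p hDat hp hpd hpn hpZ hpD
  obtain ⟨F, hFa, hFβ, hFγ, hFZ, hFΛ, -⟩ := hDat.full
  have hN : α * Q.cj α = ((F.Z ^ 2 * F.Λ : ℤ) : 𝓞 K) := by
    rw [← hFβ, F.nβ]
    push_cast
    ring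
  have h1 : (p : ℤ) ^ 2 ∣ F.Z ^ 2 * F.Λ := by
    rw [← hFZ] at hpZ
    exact dvd_mul_of_dvd_left (pow_dvd_pow_of_dvd hpZ 2) _
  have h2 : (p : 𝓞 K) ∣ α := hARAM K Q α _ p hp hpD hN h1
  have h3 : (p : ℤ) ∣ Q.Y α := by
    refine Q.h96_dvd_Y (p : ℤ) (by exact_mod_cast hp.ne_zero) ?_
    rw [Int.cast_natCast]
    exact h2
  have h5 := hDat.n
  rw [h5] at h3
  rw [← Nat.cast_mul, Int.natCast_dvd_natCast] at h3
  have h4 : p ∣ d * t.1.1 := h3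
  rcases (Nat.Prime.dvd_mul hp).1 h4 with h | h
  · exact hpd h
  · exact hpn h

end Pool.Agent.T5
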