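import Pool.Agent.helper3.T5.SpecA

set_option autoImplicit false

/-!
# T5, row APFU
-/

namespace Pool.Agent.T5

open Finset NumberField Pool.Agent.helper3.FT Pool.Agent.helper47.RA

theorem APFU : APFU_stmt := by
  intro D d p hD hp hpd
  have hpP : Prime (p : ℤ) := Nat.prime_iff_prime_int.mp hp
  unfold Pfund
  rcases eq_or_ne p 2 with h2 | h2
  · subst h2
    rw [if_pos rfl]
    obtain ⟨f, hf⟩ : ∃ f : ℤ, (d : ℤ) ^ 2 = 8 * f + 1 := by
      have hd1 : (d : ℤ) % 2 = 1 := by omega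
      have h3 : (d : ℤ) ^ 2 % 8 = 1 := by
        have h4 : (d : ℤ) % 8 = 1 ∨ (d : ℤ) % 8 = 3 ∨ (d : ℤ) % 8 = 5 ∨ (d : ℤ) % 8 = 7 := by omega
        rcases h4 with h | h | h | h <;> simp [pow_two, Int.mul_emod, h]
      exact ⟨(d : ℤ) ^ 2 / 8, by omega⟩
    rw [hf]
    rcases hD with ⟨h, -⟩ | ⟨m, hm, hm4, -⟩
    · have e : D * (8 * f + 1) = 8 * (D * f) + D := by ring
      rw [e]
      generalize D * f = w
      omega
    · have e : D * (8 * f + 1) = 32 * (m * f) + 4 * m := by rw [hm]; ring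
      rw [e]
      generalize m * f = w
      omega
  · rw [if_neg h2]
    intro h
    have hcop : IsCoprime ((p : ℤ) ^ 2) ((d : ℤ) ^ 2) := by
      apply IsCoprime.pow
      refine (Prime.coprime_iff_not_dvd hpP).2 ?_
      intro h3
      exact hpd (by exact_mod_cast h3)
    have h7 : (p : ℤ) ^ 2 ∣ D := hcop.dvd_of_dvd_mul_right h
    rcases hD.sq_dvd h7 with h | ⟨m, -, -, h⟩
    · exact hpP.not_isUnit h
    · have h8 := hp.two_le
      rcases h with h | h
      · apply h2
        exact_mod_cast h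
      · omega

end Pool.Agent.T5
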