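import Pool.Agent.helper3.T5.SpecA

set_option autoImplicit false

/-!
# T5, row APPR
-/

namespace Pool.Agent.T5

open Finset NumberField Pool.Agent.helper3.FT Pool.Agent.helper47.RA

theorem APPR : APPR_stmt := by
  intro K _ _ Q a ha hprim hprin hlt
  obtain ⟨x, hx⟩ := hprin.principal
  have hspan : a = Ideal.span {x} := hx
  have hx0 : x ≠ 0 := by
    rintro rfl
    apply ha
    rw [hspan]
    simp
  obtain ⟨x1, hx1⟩ := Q.exists_re x
  obtain ⟨y, hy⟩ : ∃ y, y = Q.Y x := ⟨_, rfl⟩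
  rw [← hy] at hx1
  have hN : x * Q.cj x = ((x1 ^ 2 + Q.t * x1 * y - Q.k * y ^ 2 : ℤ) : 𝓞 K) := by
    rw [hx1, Q.norm_form]
  have hnorm := Q.absNorm_eq x _ hN
  rw [← hspan] at hnorm
  have h4 : 4 * (x1 ^ 2 + Q.t * x1 * y - Q.k * y ^ 2) = (2 * x1 + Q.t * y) ^ 2 - Q.D * y ^ 2 := by
    rw [Q.hk]
    linear_combination (-(y ^ 2)) * Q.t_sq
  obtain ⟨N, hNN⟩ : ∃ N : ℤ, N = x1 ^ 2 + Q.t * x1 * y - Q.k * y ^ 2 := ⟨_, rfl⟩
  rw [← hNN] at hnorm h4
  have hD0 : 0 < -Q.D := lt_of_le_of_lt (by positivity) hlt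
  have hN0 : 0 ≤ 4 * N := by
    rw [h4]
    nlinarith [sq_nonneg (2 * x1 + Q.t * y), mul_nonneg hD0.le (sq_nonneg y)]
  have hN1 : |N| = N := abs_of_nonneg (by linarith)
  rw [hN1] at hnorm
  have hy0 : y = 0 := by
    by_contra hy0
    have h5 : 1 ≤ y ^ 2 := by
      have : 0 < y ^ 2 := by positivity
      linarith
    rw [hnorm, h4] at hlt
    nlinarith [sq_nonneg (2 * x1 + Q.t * y), mul_le_mul_of_nonneg_left h5 hD0.le]
  rw [hy0] at hx1 hNN
  have hxx : x = (x1 : 𝓞 K) := by rw [hx1]; simp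
  have hN2 : N = x1 ^ 2 := by rw [hNN]; ring
  have hx10 : x1.natAbs ≠ 0 := by
    intro h
    rw [Int.natAbs_eq_zero] at h
    apply hx0
    rw [hxx, h]
    simp
  have hx11 : x1.natAbs = 1 := by
    by_contra h
    obtain ⟨q, hq, hqx⟩ := Nat.exists_prime_and_dvd h
    apply hprim q hq
    rw [hspan, Ideal.dvd_iff_le, Ideal.span_singleton_le_span_singleton]
    have h6 : (q : ℤ) ∣ x1 := Int.natCast_dvd.2 hqx
    obtain ⟨c, hc⟩ := h6
    refine ⟨(c : 𝓞 K), ?_⟩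
    rw [hxx, hc]
    push_cast
    ring
  have hx12 : x1 ^ 2 = 1 := by
    rw [← Int.natAbs_sq, hx11]
    norm_num
  have : (Ideal.absNorm a : ℤ) = 1 := by rw [hnorm, hN2, hx12]
  exact_mod_cast this

end Pool.Agent.T5
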