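import Pool.Agent.helper3.T5.SpecA

set_option autoImplicit false

/-!
# T5, row ARAM
-/

namespace Pool.Agent.T5

open Finset NumberField Pool.Agent.helper3.FT Pool.Agent.helper47.RA

theorem ARAM_form {K : Type} [Field K] [NumberField K] (Q : QF K) (x : 𝓞 K) (N : ℤ)
    (hN : x * Q.cj x = (N : 𝓞 K)) : ∃ x1 : ℤ, x = x1 + Q.Y x * Q.ω ∧
      N = x1 ^ 2 + Q.t * x1 * Q.Y x - Q.k * Q.Y x ^ 2 ∧
      4 * N = (2 * x1 + Q.t * Q.Y x) ^ 2 - Q.D * Q.Y x ^ 2 := by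
  obtain ⟨x1, hx1⟩ := Q.exists_re x
  refine ⟨x1, hx1, ?_⟩
  generalize Q.Y x = y at hx1 ⊢
  have e1 : N = x1 ^ 2 + Q.t * x1 * y - Q.k * y ^ 2 := by
    rw [hx1, Q.norm_form] at hN
    exact (QF.int_inj hN).symm
  refine ⟨e1, ?_⟩
  rw [e1, Q.hk]
  linear_combination (-(y ^ 2)) * Q.t_sq

theorem ARAM : ARAM_stmt := by
  intro K _ _ Q x N p hp hpD hN hpN
  obtain ⟨x1, hx1, e1, e2⟩ := ARAM_form Q x N hN
  have hpP : Prime (p : ℤ) := Nat.prime_iff_prime_int.mp hp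
  have hpN1 : (p : ℤ) ∣ N := (Dvd.intro_left _ rfl : (p : ℤ) ∣ (p : ℤ) ^ 1 * p).trans (by rwa [← pow_succ])
  refine Q.dvd_of_dvd p hp x N hN ?_ hpN1
  by_contra hy
  rcases eq_or_ne p 2 with h2 | h2
  · subst h2
    have ht0 : Q.t = 0 := by
      rcases Q.ht with h | h
      · exact h
      · exfalso
        have := Q.hk
        rw [h] at this
        obtain ⟨c, hc⟩ := hpD
        push_cast at hc
        omega
    have hD := Q.hk
    rw [ht0] at hD e1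
    have hk : Q.k % 4 = 2 ∨ Q.k % 4 = 3 := by
      rcases Q.hD with ⟨h, -⟩ | ⟨m, hm, hm4, -⟩
      · omega
      · have : m = Q.k := by omega
        rw [← this]; exact hm4
    have hy1 : Q.Y x % 2 = 1 := by
      rcases Int.emod_two_eq_zero_or_one (Q.Y x) with h | h
      · exact absurd (Int.dvd_of_emod_eq_zero h) (by simpa using hy)
      · exact h
    have hyy : Q.Y x ^ 2 % 4 = 1 := by
      have h3 : Q.Y x % 4 = 1 ∨ Q.Y x % 4 = 3 := by omega
      rcases h3 with h | h <;> simp [pow_two, Int.mul_emod, h]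
    have hxx : x1 ^ 2 % 4 = 0 ∨ x1 ^ 2 % 4 = 1 := by
      have h3 : x1 % 4 = 0 ∨ x1 % 4 = 1 ∨ x1 % 4 = 2 ∨ x1 % 4 = 3 := by omega
      rcases h3 with h | h | h | h <;> simp [pow_two, Int.mul_emod, h]
    have hN4 : N % 4 = 0 := by
      apply Int.emod_eq_zero_of_dvd
      norm_num at hpN
      exact hpN
    have hkk : (Q.k * Q.Y x ^ 2) % 4 = Q.k % 4 := by
      rw [Int.mul_emod, hyy]
      simp
    simp only [zero_mul, add_zero] at e1
    generalize Q.k * Q.Y x ^ 2 = w at *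
    generalize x1 ^ 2 = v at *
    omega
  · have h4 : (p : ℤ) ∣ (2 * x1 + Q.t * Q.Y x) ^ 2 := by
      have : (2 * x1 + Q.t * Q.Y x) ^ 2 = 4 * N + Q.D * Q.Y x ^ 2 := by rw [e2]; ring
      rw [this]
      exact dvd_add (hpN1.mul_left _) (hpD.mul_right _)
    have h5 : (p : ℤ) ∣ (2 * x1 + Q.t * Q.Y x) := hpP.dvd_of_dvd_pow h4
    have h6 : (p : ℤ) ^ 2 ∣ Q.D * Q.Y x ^ 2 := by
      have : Q.D * Q.Y x ^ 2 = (2 * x1 + Q.t * Q.Y x) ^ 2 - 4 * N := by rw [e2]; ring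
      rw [this]
      exact dvd_sub (pow_dvd_pow_of_dvd h5 2) (hpN.mul_left _)
    have hcop : IsCoprime ((p : ℤ) ^ 2) (Q.Y x ^ 2) := by
      apply IsCoprime.pow
      exact (Prime.coprime_iff_not_dvd hpP).2 hy
    have h7 : (p : ℤ) ^ 2 ∣ Q.D := hcop.dvd_of_dvd_mul_right h6
    rcases Q.hD.sq_dvd h7 with h | ⟨m, -, -, h⟩
    · exact hpP.not_isUnit h
    · have h8 := hp.two_le
      rcases h with h | h
      · apply h2
        exact_mod_cast h
      · omega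

end Pool.Agent.T5
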