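import Pool.Agent.helper26.T5.SpecB

set_option autoImplicit false

/-!
# T5, row LBB
-/

namespace Pool.Agent.helper26.T5

open NumberField Pool.Agent.helper3.FT Pool.Agent.helper47.RA Pool.Agent.T5

variable {K : Type} [Field K] [NumberField K]

theorem lbb_self (Q : QF K) (a : 𝓞 K) : Q.Y (Q.cj a * a) = 0 := by
  obtain ⟨N, hN, -⟩ := Q.exists_norm a
  rw [mul_comm, hN, Q.Y_int]

theorem lbb_swap (Q : QF K) (a b : 𝓞 K) : Q.Y (Q.cj b * a) = - Q.Y (Q.cj a * b) := by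
  rw [← Q.Y_cj, map_mul, Q.cj_cj, mul_comm]

theorem lbb_bilin (Q : QF K) (a b : 𝓞 K) (x y u v : ℤ) :
    Q.Y (Q.cj (x * a + y * b) * (u * a + v * b)) = (x * v - y * u) * Q.Y (Q.cj a * b) := by
  have h : Q.cj (x * a + y * b) * (u * a + v * b) =
      ((x * u : ℤ) : 𝓞 K) * (Q.cj a * a) + ((x * v : ℤ) : 𝓞 K) * (Q.cj a * b) +
      ((y * u : ℤ) : 𝓞 K) * (Q.cj b * a) + ((y * v : ℤ) : 𝓞 K) * (Q.cj b * b) := by
    rw [map_add, map_mul, map_mul, Q.cj_int, Q.cj_int]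
    push_cast
    ring
  rw [h, Q.Y_add, Q.Y_add, Q.Y_add, Q.Y_int_mul, Q.Y_int_mul, Q.Y_int_mul, Q.Y_int_mul, lbb_self, lbb_self,
    lbb_swap Q a b]
  ring

theorem lbb (hLEMB : LEMB) (hLBA : LBA) : LBB := by
  classical
  intro K _ _ Q I hD hI
  obtain ⟨E, hEn, hEi, hEc, hnn, -⟩ := hLEMB K Q hD
  obtain ⟨f₁, hf₁, f₂, hf₂, hsp, hdet⟩ := hLBA K Q I hI
  have hM : (0 : ℤ) < (Ideal.absNorm I : ℤ) := by
    have : Ideal.absNorm I ≠ 0 := by rwa [Ne, Ideal.absNorm_eq_zero_iff]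
    have h2 := Nat.pos_of_ne_zero this
    exact_mod_cast h2
  -- a shortest vector
  have hex : ∃ n : ℕ, ∃ α ∈ I, α ≠ 0 ∧ nn α = n := by
    obtain ⟨α, hα, hα0⟩ := Submodule.exists_mem_ne_zero_of_ne_bot hI
    exact ⟨nn α, α, hα, hα0, rfl⟩
  obtain ⟨e₁, he₁, he0, hn1⟩ := Nat.find_spec hex
  have hmin : ∀ β ∈ I, β ≠ 0 → nn e₁ ≤ nn β := by
    intro β hβ hβ0
    rw [hn1]
    exact Nat.find_min' hex ⟨β, hβ, hβ0, rfl⟩
  have hnpos : ∀ β : 𝓞 K, β ≠ 0 → 0 < nn β := by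
    intro β hβ
    refine Nat.pos_of_ne_zero fun h => hβ ?_
    unfold nn at h
    rwa [Ideal.absNorm_eq_zero_iff, Ideal.span_singleton_eq_bot] at h
  obtain ⟨x, y, hxy⟩ := hsp e₁ he₁
  -- coprime coordinates
  have hco : Int.gcd x y = 1 := by
    obtain ⟨g, hg⟩ : ∃ g : ℕ, g = Int.gcd x y := ⟨_, rfl⟩
    obtain ⟨x', hx'⟩ : (g : ℤ) ∣ x := hg ▸ Int.gcd_dvd_left x y
    obtain ⟨y', hy'⟩ : (g : ℤ) ∣ y := hg ▸ Int.gcd_dvd_right x y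
    rw [← hg]
    have hβ : e₁ = ((g : ℤ) : 𝓞 K) * ((x' : 𝓞 K) * f₁ + y' * f₂) := by
      rw [hxy, hx', hy']
      push_cast
      ring
    have hβI : (x' : 𝓞 K) * f₁ + y' * f₂ ∈ I := I.add_mem (I.mul_mem_left _ hf₁) (I.mul_mem_left _ hf₂)
    have hβ0 : (x' : 𝓞 K) * f₁ + y' * f₂ ≠ 0 := by
      intro h
      rw [h, mul_zero] at hβ
      exact he0 hβ
    have h1 : (nn e₁ : ℝ) = (g : ℝ) ^ 2 * nn (K := K) ((x' : 𝓞 K) * f₁ + (y' : 𝓞 K) * f₂) := by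
      rw [hnn, hnn]
      conv_lhs => rw [hβ]
      rw [Q.v₁_mul, Q.v₁_int, mul_pow, sq_abs]
      push_cast
      ring
    have h2 : (nn e₁ : ℝ) ≤ nn (K := K) ((x' : 𝓞 K) * f₁ + (y' : 𝓞 K) * f₂) := by exact_mod_cast hmin _ hβI hβ0
    have h3 : (0 : ℝ) < nn (K := K) ((x' : 𝓞 K) * f₁ + (y' : 𝓞 K) * f₂) := by exact_mod_cast hnpos _ hβ0
    have hg0 : g ≠ 0 := by
      intro h
      rw [h] at hβ
      simp at hβ
      exact he0 hβ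
    by_contra hg1
    have hg2 : (2 : ℝ) ≤ g := by
      have : 2 ≤ g := by omega
      exact_mod_cast this
    rw [h1] at h2
    have h4 : (4 : ℝ) ≤ (g : ℝ) ^ 2 := by nlinarith
    have h5 := mul_le_mul_of_nonneg_right h4 h3.le
    linarith
  obtain ⟨v, u', huv⟩ : ∃ v u' : ℤ, v * x + u' * y = 1 := by
    have h := Int.isCoprime_iff_gcd_eq_one.2 hco
    obtain ⟨p, q, hpq⟩ := h
    exact ⟨p, q, hpq⟩
  obtain ⟨u, rfl⟩ : ∃ u : ℤ, u' = -u := ⟨-u', by ring⟩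
  have hdet1 : x * v - y * u = 1 := by linarith
  obtain ⟨g, hg⟩ : ∃ g : 𝓞 K, g = (u : 𝓞 K) * f₁ + v * f₂ := ⟨_, rfl⟩
  have hgI : g ∈ I := by
    rw [hg]; exact I.add_mem (I.mul_mem_left _ hf₁) (I.mul_mem_left _ hf₂)
  have hf1e : f₁ = (v : 𝓞 K) * e₁ - y * g := by
    have : ((x * v - y * u : ℤ) : 𝓞 K) = 1 := by rw [hdet1]; simp
    push_cast at this
    rw [hxy, hg]
    linear_combination (-f₁) * this
  have hf2e : f₂ = (x : 𝓞 K) * g - u * e₁ := by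
    have : ((x * v - y * u : ℤ) : 𝓞 K) = 1 := by rw [hdet1]; simp
    push_cast at this
    rw [hxy, hg]
    linear_combination (-f₂) * this
  have hYg : |Q.Y (Q.cj e₁ * g)| = (Ideal.absNorm I : ℤ) := by
    rw [hxy, hg, lbb_bilin, hdet1, one_mul]
    exact hdet
  have hn1pos : (0 : ℝ) < nn e₁ := by exact_mod_cast hnpos e₁ he0
  -- reduce
  obtain ⟨ρ, hρ⟩ : ∃ ρ : ℝ, ρ = ((starRingEnd ℂ) (E e₁) * E g).re := ⟨_, rfl⟩
  obtain ⟨j, hj⟩ : ∃ j : ℤ, j = round (ρ / nn e₁) := ⟨_, rfl⟩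
  obtain ⟨e₂, he₂⟩ : ∃ e₂ : 𝓞 K, e₂ = g - j * e₁ := ⟨_, rfl⟩
  have he₂I : e₂ ∈ I := by
    rw [he₂]; exact I.sub_mem hgI (I.mul_mem_left _ he₁)
  have hY2 : |Q.Y (Q.cj e₁ * e₂)| = (Ideal.absNorm I : ℤ) := by
    have h1 : Q.cj e₁ * e₂ = Q.cj e₁ * g - ((j : ℤ) : 𝓞 K) * (Q.cj e₁ * e₁) := by rw [he₂]; ring
    rw [h1, Q.Y_sub, Q.Y_int_mul, lbb_self, mul_zero, sub_zero]
    exact hYg
  have he₂0 : e₂ ≠ 0 := by
    intro h
    rw [h, mul_zero] at hY2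
    have : Q.Y (0 : 𝓞 K) = 0 := by
      have := Q.Y_int 0
      simpa using this
    rw [this, abs_zero] at hY2
    omega
  obtain ⟨z, hz⟩ : ∃ z : ℂ, z = (starRingEnd ℂ) (E e₁) * E e₂ := ⟨_, rfl⟩
  have hnorm : ∀ b : 𝓞 K, ‖E b‖ ^ 2 = nn b := fun b => by rw [hEn, hnn]
  have hzre : |z.re| ≤ nn e₁ / 2 := by
    have h1 : z = (starRingEnd ℂ) (E e₁) * E g - (j : ℂ) * ((nn e₁ : ℝ) : ℂ) := by
      rw [hz, he₂, map_sub, map_mul, map_intCast, ← hnorm e₁]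
      have : (((‖E e₁‖ ^ 2 : ℝ)) : ℂ) = (starRingEnd ℂ) (E e₁) * E e₁ := by
        rw [← Complex.normSq_eq_norm_sq, Complex.normSq_eq_conj_mul_self]
      rw [this]
      ring
    have h2 : z.re = ρ - j * nn e₁ := by
      rw [h1, Complex.sub_re, ← hρ]
      congr 1
      have : ((j : ℂ) * ((nn e₁ : ℝ) : ℂ)) = (((j : ℝ) * (nn e₁ : ℝ) : ℝ) : ℂ) := by push_cast; rfl
      rw [this, Complex.ofReal_re]
    have h3 : |ρ / nn e₁ - j| ≤ 1 / 2 := by rw [hj]; exact abs_sub_round _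
    rw [h2]
    have h4 : ρ - j * nn e₁ = (ρ / nn e₁ - j) * nn e₁ := by field_simp
    rw [h4, abs_mul, abs_of_pos hn1pos]
    nlinarith
  have hzim : z.im ^ 2 = (Ideal.absNorm I : ℝ) ^ 2 * |(Q.D : ℝ)| / 4 := by
    have h1 : z = E (Q.cj e₁ * e₂) := by rw [hz, map_mul, hEc]
    rw [h1, hEi, mul_pow, div_pow, Real.sq_sqrt (abs_nonneg _)]
    have h2 : ((Q.Y (Q.cj e₁ * e₂) : ℤ) : ℝ) ^ 2 = (Ideal.absNorm I : ℝ) ^ 2 := by
      have h3 : ((|Q.Y (Q.cj e₁ * e₂)| : ℤ) : ℝ) = (Ideal.absNorm I : ℝ) := by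
        rw [hY2]; push_cast; rfl
      rw [← h3]
      push_cast
      rw [sq_abs]
    rw [h2]
    ring
  have hznorm : z.re ^ 2 + z.im ^ 2 = (nn e₁ : ℝ) * nn e₂ := by
    have h1 : Complex.normSq z = (nn e₁ : ℝ) * nn e₂ := by
      rw [hz, Complex.normSq_mul, Complex.normSq_conj, Complex.normSq_eq_norm_sq, Complex.normSq_eq_norm_sq,
        hnorm, hnorm]
    rw [← h1, Complex.normSq_apply]
    ring
  have h12 : (nn e₁ : ℝ) ≤ nn e₂ := by exact_mod_cast hmin e₂ he₂I he₂0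
  have hre2 : z.re ^ 2 ≤ (nn e₁ : ℝ) ^ 2 / 4 := by
    have := abs_le.1 hzre
    nlinarith [this.1, this.2]
  have hprod : (nn e₁ : ℝ) * nn e₂ ≤ |(Q.D : ℝ)| * (Ideal.absNorm I : ℝ) ^ 2 := by
    have h0 : 0 ≤ |(Q.D : ℝ)| * (Ideal.absNorm I : ℝ) ^ 2 := by positivity
    nlinarith
  refine ⟨e₁, e₂, ⟨he₁, he₂I, ?_, hY2, he0, ?_, ?_⟩⟩
  · intro α hα
    obtain ⟨X, W, hα'⟩ := hsp α hα
    refine ⟨X * v - W * u + (W * x - X * y) * j, W * x - X * y, ?_⟩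
    have hge : g = e₂ + j * e₁ := by rw [he₂]; ring
    rw [hα', hf1e, hf2e, hge]
    push_cast
    ring
  · have h1 : Q.v₁ e₁ ^ 2 ≤ Q.v₁ e₂ ^ 2 := by rw [← hnn, ← hnn]; exact h12
    exact (pow_le_pow_iff_left₀ (Q.v₁_nonneg _) (Q.v₁_nonneg _) two_ne_zero).1 h1
  · have h1 : (Q.v₁ e₁ * Q.v₁ e₂) ^ 2 ≤ (√|(Q.D : ℝ)| * Ideal.absNorm I) ^ 2 := by
      rw [mul_pow, mul_pow, ← hnn, ← hnn, Real.sq_sqrt (abs_nonneg _)]
      exact hprod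
    exact (pow_le_pow_iff_left₀ (mul_nonneg (Q.v₁_nonneg _) (Q.v₁_nonneg _)) (by positivity) two_ne_zero).1 h1

end Pool.Agent.helper26.T5
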