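import Pool.Agent.helper26.T5.SpecB

set_option autoImplicit false

/-!
# T5, row LIII
-/

namespace Pool.Agent.helper26.T5

open NumberField Pool.Agent.helper3.FT Pool.Agent.helper47.RA Pool.Agent.T5

theorem liii_fiber (hLP : LP) (hLFU : LFU) (hLRD : LRD) (hLAW : LAW)
    (K : Type) [Field K] [NumberField K] (Q : QF K) (a : Ideal (𝓞 K)) (θ : 𝓞 K)
    (w : ℕ) (H T : ℝ) (hD : Q.D < 0) (hprim : Prim a) (ha : a ≠ ⊥)
    (hθ : Ideal.span {θ} = a ^ 5) (hw : 2 ≤ w) (hH : 1 ≤ H) (hT : 0 < T)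
    (d : ℕ) (S : Finset (𝓞 K)) (hS : ∀ α ∈ S, α ∈ AL Q a T ∧ Cont1 a α ∧ (∀ p ∈ pr w, alw Q p a α) ∧
    ∃ γ : 𝓞 K, γ * θ = Ideal.absNorm a * α ^ 2 ∧ H < (gd Q α γ : ℝ) ∧ gd Q α γ = d) :
    (S.card : ℝ) ≤ 1 + 2 * Real.pi * T / (H * √|(Q.D : ℝ)|) := by
  have hsD : 0 < √|(Q.D : ℝ)| := by
    apply Real.sqrt_pos.2
    apply abs_pos.2
    exact_mod_cast hD.ne
  rcases S.eq_empty_or_nonempty with h0 | ⟨α₀, hα₀⟩
  · rw [h0]
    simp only [Finset.card_empty, Nat.cast_zero]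
    positivity
  obtain ⟨-, -, -, γ₀, -, hH0, hd0⟩ := hS α₀ hα₀
  rw [hd0] at hH0
  have hdpos : 0 < d := by
    have : (0 : ℝ) < d := by linarith
    exact_mod_cast this
  obtain ⟨r, hr⟩ : ∃ r, r = Nat.gcd d (Ideal.absNorm a) := ⟨_, rfl⟩
  obtain ⟨e, he⟩ : ∃ e, d = r * e := hr ▸ Nat.gcd_dvd_left _ _
  have hrpos : 0 < r := Nat.pos_of_ne_zero fun h => by rw [h, zero_mul] at he; omega
  have hepos : 0 < e := Nat.pos_of_ne_zero fun h => by rw [h, mul_zero] at he; omega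
  have hall : ∀ α ∈ S, Squarefree r ∧ Nat.Coprime e (r * Ideal.absNorm a) ∧
      (∀ p : ℕ, p.Prime → p ∣ r → (p : ℤ) ∣ Q.D ∧ p ∣ lamI a α) ∧ ¬ 2 ∣ r ∧ (e : ℤ) ∣ Q.Y α ∧
      nn α = Ideal.absNorm a ^ 2 * lamI a α := by
    intro α hα
    obtain ⟨hAL, hc, halw, γ, hγ, -, hd⟩ := hS α hα
    obtain ⟨hmem, hYpos, -⟩ := hAL
    have hα0 : α ≠ 0 := by
      rintro rfl
      have : Q.Y (0 : 𝓞 K) = 0 := by simpa using Q.Y_int 0
      rw [this] at hYpos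
      exact lt_irrefl _ hYpos
    obtain ⟨F, hFa, hFβ, hFγ, -, hFZ, hFΛ, -⟩ := hLFU K Q a θ α γ hD hprim ha hθ hα0 hmem hc hγ
    obtain ⟨h1, h2, h3⟩ := hLRD K Q F (by rw [hFβ]; exact hYpos.ne') r e
      (by rw [hFβ, hFγ, hFa, hd, hr]) (by rw [hFβ, hFγ, hd, he])
    rw [hFa] at h2
    have h4 : ∀ p : ℕ, p.Prime → p ∣ r → (p : ℤ) ∣ Q.D ∧ p ∣ lamI a α := by
      intro p hp hpr
      obtain ⟨h5, h6, -⟩ := h3 p hp hpr
      rw [hFΛ] at h6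
      exact ⟨h5, Int.natCast_dvd_natCast.1 h6⟩
    refine ⟨h1, h2, h4, ?_, ?_, (hLAW K Q a α 2 hprim ha Nat.prime_two hα0 hmem).1⟩
    · intro h2r
      have h5 := (h4 2 Nat.prime_two h2r).2
      have h6 : 2 ∣ Ideal.absNorm a := h2r.trans (hr ▸ Nat.gcd_dvd_right _ _)
      have h7 : alw Q 2 a α := halw 2 (by
        rw [pr, Finset.mem_filter, Finset.mem_range]
        exact ⟨by omega, Nat.prime_two⟩)
      exact ((hLAW K Q a α 2 hprim ha Nat.prime_two hα0 hmem).2.1 h6).1 h7 h5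
    · have h5 : ((gd Q α γ : ℕ) : ℤ) ∣ Q.Y α := Int.gcd_dvd_left _ _
      rw [hd] at h5
      have h6 : (e : ℤ) ∣ (d : ℤ) := by
        rw [Int.natCast_dvd_natCast, he]
        exact Dvd.intro_left _ rfl
      exact h6.trans h5
  obtain ⟨h1, h2, h3, h4, -, -⟩ := hall α₀ hα₀
  have hmain := hLP K Q a T e r hD ha hT hepos h2 h1 h4 (fun p hp hpr => (h3 p hp hpr).1) S (by
    intro α hα
    obtain ⟨hAL, hc, -, -⟩ := hS α hα
    obtain ⟨-, -, h5, -, h6, h7⟩ := hall α hα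
    refine ⟨hAL, hc, h6, ?_⟩
    rw [h7, mul_comm]
    apply mul_dvd_mul_left
    rw [← Nat.prod_primeFactors_of_squarefree h1]
    apply Finset.prod_primes_dvd
    · intro p hp
      exact (Nat.prime_of_mem_primeFactors hp).prime
    · intro p hp
      exact (h5 p (Nat.prime_of_mem_primeFactors hp) (Nat.dvd_of_mem_primeFactors hp)).2)
  refine hmain.trans ?_
  have hed : (e : ℝ) * r = d := by rw [he]; push_cast; ring
  rw [hed]
  have hpi := Real.pi_pos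
  have h8 : H * √|(Q.D : ℝ)| ≤ d * √|(Q.D : ℝ)| := mul_le_mul_of_nonneg_right hH0.le hsD.le
  have h9 : 0 < H * √|(Q.D : ℝ)| := mul_pos (by linarith) hsD
  have h10 : 2 * Real.pi * T / (d * √|(Q.D : ℝ)|) ≤ 2 * Real.pi * T / (H * √|(Q.D : ℝ)|) :=
    div_le_div_of_nonneg_left (by positivity) h9 h8
  linarith

theorem liii (hLP : LP) (hLFU : LFU) (hLRD : LRD) (hLAW : LAW) : LIII := by
  classical
  intro K _ _ Q a θ w H T hD hprim ha hθ hYθ hw hH hT S hS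
  have hch : ∀ α : 𝓞 K, ∃ γ : 𝓞 K, α ∈ S → γ * θ = Ideal.absNorm a * α ^ 2 ∧ H < (gd Q α γ : ℝ) := by
    intro α
    by_cases hα : α ∈ S
    · obtain ⟨-, -, -, γ, hγ⟩ := hS α hα
      exact ⟨γ, fun _ => hγ⟩
    · exact ⟨0, fun h => absurd h hα⟩
  choose G hG using hch
  have hmaps : ∀ α ∈ S, gd Q α (G α) ∈ (Q.Y θ).natAbs.divisors := by
    intro α hα
    obtain ⟨hAL, hc, halw, -⟩ := hS α hα
    obtain ⟨hγ, hgd⟩ := hG α hα
    obtain ⟨hmem, hYpos, -⟩ := hAL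
    have hα0 : α ≠ 0 := by
      rintro rfl
      have : Q.Y (0 : 𝓞 K) = 0 := by simpa using Q.Y_int 0
      rw [this] at hYpos
      exact lt_irrefl _ hYpos
    obtain ⟨F, hFa, hFβ, hFγ, hFα, -⟩ := hLFU K Q a θ α (G α) hD hprim ha hθ hα0 hmem hc hγ
    have hd0 : ((gd Q α (G α) : ℕ) : ℤ) ≠ 0 := by
      have : (0 : ℝ) < gd Q α (G α) := by linarith
      have h2 : 0 < gd Q α (G α) := by exact_mod_cast this
      exact_mod_cast h2.ne'
    have h1 := F.gcd_dvd ((gd Q α (G α) : ℕ) : ℤ) hd0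
      (by rw [hFβ]; exact Int.gcd_dvd_left _ _) (by rw [hFγ]; exact Int.gcd_dvd_right _ _)
    have h2 := h1.2.2.1
    rw [hFα] at h2
    rw [Nat.mem_divisors]
    exact ⟨Int.natCast_dvd.1 h2, fun h => hYθ (Int.natAbs_eq_zero.1 h)⟩
  have hcard := Finset.card_eq_sum_card_fiberwise (f := fun α => gd Q α (G α)) (s := S)
    (t := (Q.Y θ).natAbs.divisors) (fun α hα => hmaps α hα)
  rw [hcard]
  push_cast
  refine (Finset.sum_le_sum (g := fun _ => 1 + 2 * Real.pi * T / (H * √|(Q.D : ℝ)|)) ?_).trans ?_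
  · intro d _
    apply liii_fiber hLP hLFU hLRD hLAW K Q a θ w H T hD hprim ha hθ hw hH hT d
    intro α hα
    rw [Finset.mem_filter] at hα
    obtain ⟨hAL, hc, halw, -⟩ := hS α hα.1
    obtain ⟨hγ, hgd⟩ := hG α hα.1
    exact ⟨hAL, hc, halw, G α, hγ, hgd, hα.2⟩
  · rw [Finset.sum_const, nsmul_eq_mul]

end Pool.Agent.helper26.T5
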