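import Pool.Agent.helper26.T5.SpecB

set_option autoImplicit false

/-!
# T5, row LQF
-/

namespace Pool.Agent.helper26.T5

open NumberField Pool.Agent.helper3.FT Pool.Agent.helper47.RA Pool.Agent.T5

variable {K : Type} [Field K] [NumberField K]

/-- `cj α * β` is divisible by the square of the norm -/
theorem lqf_dvd (Q : QF K) (a : Ideal (𝓞 K)) (α β : 𝓞 K) (hα : α ∈ a ^ 2) (hβ : β ∈ a ^ 2) :
    ((((Ideal.absNorm a : ℤ) ^ 2 : ℤ)) : 𝓞 K) ∣ Q.cj α * β := by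
  have h1 : Q.cj α ∈ Q.bar (a ^ 2) := Ideal.mem_map_of_mem _ hα
  have h2 : Q.cj α * β ∈ Q.bar (a ^ 2) * a ^ 2 := Ideal.mul_mem_mul h1 hβ
  rw [Q.bar_pow, ← mul_pow, mul_comm (Q.bar a) a, Q.mul_bar, Ideal.span_singleton_pow,
    Ideal.mem_span_singleton] at h2
  push_cast
  exact h2

theorem lqf_int_dvd (Q : QF K) (c : ℤ) (hc : c ≠ 0) (n : ℤ) (h : (c : 𝓞 K) ∣ (n : 𝓞 K)) : c ∣ n := by
  have h1 : (c : 𝓞 K) ∣ (n : 𝓞 K) + ((0 : ℤ) : 𝓞 K) * Q.ω := by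
    simpa using h
  exact ((Q.int_dvd_iff c hc n 0).1 h1).1

theorem lqf (hLEMB : LEMB) : LQF := by
  intro K _ _ Q a e₁ e₂ hD ha hR
  obtain ⟨E, -, -, -, -, hnn⟩ := hLEMB K Q hD
  have hZ0 : (Ideal.absNorm a : ℤ) ≠ 0 := by
    have : Ideal.absNorm a ≠ 0 := by rwa [Ne, Ideal.absNorm_eq_zero_iff]
    exact_mod_cast this
  obtain ⟨Z, hZ⟩ : ∃ Z : ℤ, Z = (Ideal.absNorm a : ℤ) := ⟨_, rfl⟩
  rw [← hZ] at hZ0 ⊢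
  have hc : Z ^ 2 ≠ 0 := pow_ne_zero 2 hZ0
  have d11 : ((Z ^ 2 : ℤ) : 𝓞 K) ∣ Q.cj e₁ * e₁ := by rw [hZ]; exact lqf_dvd Q a _ _ hR.m1 hR.m1
  have d12 : ((Z ^ 2 : ℤ) : 𝓞 K) ∣ Q.cj e₁ * e₂ := by rw [hZ]; exact lqf_dvd Q a _ _ hR.m1 hR.m2
  have d22 : ((Z ^ 2 : ℤ) : 𝓞 K) ∣ Q.cj e₂ * e₂ := by rw [hZ]; exact lqf_dvd Q a _ _ hR.m2 hR.m2
  have n1 : e₁ * Q.cj e₁ = ((nn e₁ : ℤ) : 𝓞 K) := by rw [hnn e₁]; push_cast; rfl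
  have n2 : e₂ * Q.cj e₂ = ((nn e₂ : ℤ) : 𝓞 K) := by rw [hnn e₂]; push_cast; rfl
  obtain ⟨A, hA⟩ : Z ^ 2 ∣ (nn e₁ : ℤ) := by
    apply lqf_int_dvd Q _ hc
    rw [← n1, mul_comm]; exact d11
  obtain ⟨C, hC⟩ : Z ^ 2 ∣ (nn e₂ : ℤ) := by
    apply lqf_int_dvd Q _ hc
    rw [← n2, mul_comm]; exact d22
  obtain ⟨τ, hτ, -⟩ := Q.exists_trace (Q.cj e₁ * e₂)
  have hτ' : Q.cj e₁ * e₂ + e₁ * Q.cj e₂ = (τ : 𝓞 K) := by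
    rw [← hτ, map_mul, Q.cj_cj]
  obtain ⟨B, hB⟩ : Z ^ 2 ∣ τ := by
    apply lqf_int_dvd Q _ hc
    rw [← hτ]
    refine dvd_add d12 ?_
    have h1 := map_dvd Q.cj d12
    rwa [Q.cj_int] at h1
  refine ⟨A, B, C, ?_, fun x y => ?_⟩
  · -- the discriminant
    have h1 := Q.sub_cj (Q.cj e₁ * e₂)
    have h2 := Q.delta_sq
    have h3 : Q.Y (Q.cj e₁ * e₂) ^ 2 = (Z ^ 2) ^ 2 := by
      have h4 := hR.det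
      rw [map_pow] at h4
      push_cast at h4
      rw [← hZ] at h4
      rw [← sq_abs, h4]
    have h5 : (((Z ^ 2) ^ 2 * Q.D : ℤ) : 𝓞 K) = (((Z ^ 2) ^ 2 * (B ^ 2 - 4 * A * C) : ℤ) : 𝓞 K) := by
      have e1 : (((Z ^ 2) ^ 2 * Q.D : ℤ) : 𝓞 K) = (Q.cj e₁ * e₂ - Q.cj (Q.cj e₁ * e₂)) ^ 2 := by
        rw [h1, ← h3]
        push_cast
        rw [← h2]
        ring
      have e2 : Q.cj (Q.cj e₁ * e₂) = e₁ * Q.cj e₂ := by rw [map_mul, Q.cj_cj]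
      have e3 : (Q.cj e₁ * e₂ - e₁ * Q.cj e₂) ^ 2 =
          (Q.cj e₁ * e₂ + e₁ * Q.cj e₂) ^ 2 - 4 * ((e₁ * Q.cj e₁) * (e₂ * Q.cj e₂)) := by ring
      rw [e1, e2, e3, hτ', n1, n2, hA, hC, hB]
      push_cast
      ring
    have h6 := QF.int_inj (K := K) h5
    have h7 : (Z ^ 2) ^ 2 ≠ 0 := pow_ne_zero 2 hc
    exact (mul_left_cancel₀ h7 h6).symm
  · apply QF.int_inj (K := K)
    have h1 := hnn (x * e₁ + y * e₂ : 𝓞 K)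
    have h2 : (((nn (x * e₁ + y * e₂ : 𝓞 K) : ℕ) : ℤ) : 𝓞 K) = (x * e₁ + y * e₂) * Q.cj (x * e₁ + y * e₂) := by
      rw [h1]; push_cast; rfl
    rw [h2, map_add, map_mul, map_mul, Q.cj_int, Q.cj_int]
    have e3 : ((x : 𝓞 K) * e₁ + y * e₂) * (x * Q.cj e₁ + y * Q.cj e₂) =
        x ^ 2 * (e₁ * Q.cj e₁) + x * y * (Q.cj e₁ * e₂ + e₁ * Q.cj e₂) + y ^ 2 * (e₂ * Q.cj e₂) := by ring
    rw [e3, hτ', n1, n2, hA, hC, hB]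
    push_cast
    ring

end Pool.Agent.helper26.T5
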