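import Pool.Agent.helper26.T5.SpecB

set_option autoImplicit false

/-!
# T5, row LRD
-/

namespace Pool.Agent.helper26.T5

open NumberField Pool.Agent.helper3.FT Pool.Agent.helper47.RA Pool.Agent.T5

variable {K : Type} [Field K] [NumberField K]

theorem lrd_prime (hLXW : LXW) (K : Type) [Field K] [NumberField K] (Q : QF K) (F : Full Q)
    (p : ℕ) (hp : p.Prime) (h1 : (p : ℤ) ∣ Q.Y F.β) (h2 : (p : ℤ) ∣ Q.Y F.γ)
    (h3 : (p : ℤ) ∣ F.Z) : (p : ℤ) ∣ Q.D ∧ (p : ℤ) ∣ F.Λ ∧ ¬ (p : ℤ) ^ 2 ∣ Q.Y F.β := by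
  have hβ : (p : 𝓞 K) ∣ F.β := Q.dvd_of_dvd p hp F.β (F.Z ^ 2 * F.Λ) (by rw [F.nβ]; push_cast; ring) h1
    (Dvd.dvd.mul_right (dvd_pow h3 two_ne_zero) _)
  have hγ : (p : 𝓞 K) ∣ F.γ := Q.dvd_of_dvd p hp F.γ (F.Z * F.Λ ^ 2) (by rw [F.nγ]; push_cast; ring) h2
    (Dvd.dvd.mul_right h3 _)
  obtain ⟨P, -, hPP, hbar, hPa, hPL⟩ := F.ramified p hp hβ hγ
  have hNP : Ideal.absNorm P = p := by
    have h4 := h96_norm_q Q p
    rw [← hPP, map_mul] at h4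
    nlinarith [hp.pos]
  have hPprime : Prime P := h96_prime_of_norm hp hNP
  obtain ⟨-, hint, hram, -⟩ := hLXW K Q P p hp hNP
  refine ⟨hram hbar, ?_, ?_⟩
  · obtain ⟨L', hL'⟩ := hPL
    have h4 : Ideal.absNorm P ∣ Ideal.absNorm F.L := by
      rw [hL', map_mul]
      exact Dvd.intro _ rfl
    rw [hNP] at h4
    have h5 : (p : ℤ) ∣ (Ideal.absNorm F.L : ℤ) := by exact_mod_cast h4
    rw [F.nL] at h5
    exact (dvd_abs _ _).1 h5
  · intro hpp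
    obtain ⟨β₁, hβ₁⟩ := hβ
    obtain ⟨a₁, ha₁⟩ := hPa
    have hPa₁ : ¬ P ∣ a₁ := by
      rintro ⟨a₂, ha₂⟩
      refine F.pa p hp ⟨a₂, ?_⟩
      rw [ha₁, ha₂, ← hPP]
      ring
    have hY1 : Q.Y F.β = p * Q.Y β₁ := by
      have h4 : F.β = ((p : ℤ) : 𝓞 K) * β₁ := by rw [hβ₁]; push_cast; rfl
      rw [h4, Q.Y_int_mul]
    have hpY1 : (p : ℤ) ∣ Q.Y β₁ := by
      rw [hY1, pow_two] at hpp
      have hp0 : (p : ℤ) ≠ 0 := by exact_mod_cast hp.ne_zero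
      exact (mul_dvd_mul_iff_left hp0).1 hpp
    have hPP0 : P * P ≠ 0 := mul_ne_zero hPprime.ne_zero hPprime.ne_zero
    have hspan : Ideal.span {β₁} = a₁ ^ 2 * F.L := by
      apply mul_left_cancel₀ hPP0
      have h4 := F.iβ
      rw [hβ₁, ← Ideal.span_singleton_mul_span_singleton, ← hPP, ha₁] at h4
      rw [h4]
      ring
    have hβP : β₁ ∈ P := by
      have h4 : P ∣ Ideal.span {β₁} := by
        rw [hspan]
        exact Dvd.dvd.mul_left hPL _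
      rw [Ideal.dvd_iff_le, Ideal.span_singleton_le_iff_mem] at h4
      exact h4
    have hpP : (p : 𝓞 K) ∈ P := by
      have h4 : P ∣ Ideal.span {(p : 𝓞 K)} := ⟨P, hPP.symm⟩
      rw [Ideal.dvd_iff_le, Ideal.span_singleton_le_iff_mem] at h4
      exact h4
    obtain ⟨x, hx⟩ := Q.exists_re β₁
    obtain ⟨y, hy⟩ := hpY1
    have hxP : (x : 𝓞 K) ∈ P := by
      have h4 : (x : 𝓞 K) = β₁ - (p : 𝓞 K) * ((y : 𝓞 K) * Q.ω) := by
        rw [hy] at hx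
        push_cast at hx
        linear_combination -hx
      rw [h4]
      exact P.sub_mem hβP (P.mul_mem_right _ hpP)
    obtain ⟨x', hx'⟩ := hint x hxP
    have hpβ₁ : (p : 𝓞 K) ∣ β₁ := by
      refine ⟨(x' : 𝓞 K) + y * Q.ω, ?_⟩
      rw [hx, hy, hx']
      push_cast
      ring
    have h6 : P ^ 2 ∣ a₁ ^ 2 * F.L := by
      rw [← hspan, pow_two, hPP, Ideal.dvd_iff_le, Ideal.span_singleton_le_span_singleton]
      exact hpβ₁
    have h7 : ¬ P ∣ a₁ ^ 2 := fun h => hPa₁ (hPprime.dvd_of_dvd_pow h)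
    have h8 : P ^ 2 ∣ F.L := hPprime.pow_dvd_of_dvd_mul_left 2 h7 h6
    rw [pow_two, hPP] at h8
    exact F.pL p hp h8

theorem lrd (hLXW : LXW) : LRD := by
  intro K _ _ Q F hn r e hr hre
  have hdY : ((gd Q F.β F.γ : ℕ) : ℤ) ∣ Q.Y F.β := Int.gcd_dvd_left _ _
  have hdY' : ((gd Q F.β F.γ : ℕ) : ℤ) ∣ Q.Y F.γ := Int.gcd_dvd_right _ _
  have hrd : r ∣ gd Q F.β F.γ := hre ▸ Dvd.intro _ rfl
  have hrZ : r ∣ Ideal.absNorm F.a := hr ▸ Nat.gcd_dvd_right _ _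
  have key : ∀ p : ℕ, p.Prime → p ∣ r → (p : ℤ) ∣ Q.D ∧ (p : ℤ) ∣ F.Λ ∧ ¬ (p : ℤ) ^ 2 ∣ Q.Y F.β := by
    intro p hp hpr
    have h1 : (p : ℤ) ∣ ((gd Q F.β F.γ : ℕ) : ℤ) := by exact_mod_cast hpr.trans hrd
    have h3 : (p : ℤ) ∣ (Ideal.absNorm F.a : ℤ) := by exact_mod_cast hpr.trans hrZ
    rw [F.na] at h3
    exact lrd_prime hLXW K Q F p hp (h1.trans hdY) (h1.trans hdY') ((dvd_abs _ _).1 h3)
  have hsq : ∀ p : ℕ, p.Prime → p ∣ r → ¬ p * p ∣ gd Q F.β F.γ := by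
    intro p hp hpr h
    apply (key p hp hpr).2.2
    have h1 : ((p * p : ℕ) : ℤ) ∣ ((gd Q F.β F.γ : ℕ) : ℤ) := by exact_mod_cast h
    push_cast at h1
    rw [pow_two]
    exact h1.trans hdY
  refine ⟨?_, ?_, key⟩
  · rw [Nat.squarefree_iff_prime_squarefree]
    intro p hp hpp
    exact hsq p hp ((Dvd.intro _ rfl).trans hpp) (hpp.trans hrd)
  · rw [Nat.Coprime]
    by_contra hc
    obtain ⟨p, hp, hpe, hpr⟩ := Nat.Prime.not_coprime_iff_dvd.1 hc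
    have hpr' : p ∣ r := by
      rcases (Nat.Prime.dvd_mul hp).1 hpr with h | h
      · exact h
      · rw [hr]
        refine Nat.dvd_gcd ?_ h
        rw [hre]
        exact Dvd.dvd.mul_left hpe _
    apply hsq p hp hpr'
    rw [hre]
    exact mul_dvd_mul hpr' hpe

end Pool.Agent.helper26.T5
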