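import Pool.Agent.helper95.T5.SpecE

set_option autoImplicit false

/-!
# T5, common part of the rows NUMC and NUMT: the sides
-/

namespace Pool.Agent.T5

open Finset NumberField Pool.Agent.helper3.FT Pool.Agent.helper47.RA

theorem NUM_sides (E L m p q w : ℝ) (N₁ K₁ M G H e q₁ q₂ : ℕ)
    (hE : 1 ≤ E) (hL : 1 ≤ L) (hm : 1 ≤ m) (hp : 0 < p) (hq : 0 < q) (hw : 0 < w)
    (hq₁ : 1 ≤ q₁) (hq₂ : 1 ≤ q₂) (he : (e : ℝ) ≤ L)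
    (hN1 : p ^ 2 * q / w ≤ E * N₁) (hN2 : (N₁ : ℝ) ≤ E * (p ^ 2 * q / w))
    (hK1 : p * q ^ 2 / w ≤ E * K₁) (hK2 : (K₁ : ℝ) ≤ E * (p * q ^ 2 / w))
    (hM1 : p ^ 3 * q / w ≤ E * (q₁ * M))
    (hG1 : p * q ^ 3 / w ≤ E * (q₂ * G))
    (hM2 : (q₁ * M : ℝ) ≤ E * (p ^ 3 * q / w))
    (hG2 : (q₂ * G : ℝ) ≤ E * (p * q ^ 3 / w))
    (hH : (H : ℝ) ≤ E ^ 4 * (L * (q₁ * q₂) * (p ^ 5 * q ^ 5 / w ^ 4)))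
    (hA : 1 ≤ q ^ 5 / w ^ 2) (hA' : 1 ≤ p ^ 2 * q ^ 3 / w ^ 2) (hB : 1 ≤ p ^ 3 * q ^ 2 / w ^ 2)
    (hX : 1 ≤ p ^ 5 / w ^ 2 * m ^ 2) :
    ∃ a : Fin 4 → ℕ, Sides N₁ K₁ M G H e q₁ q₂ a ∧
      (a 0 : ℝ) + 1 ≤ 151 * E ^ 10 * L * q₁ * (q ^ 5 / w ^ 2) ∧
      (a 1 : ℝ) + 1 ≤ 151 * E ^ 10 * L * (q₁ * q₂) * (p ^ 2 * q ^ 3 / w ^ 2) ∧
      (a 2 : ℝ) + 1 ≤ 151 * E ^ 10 * L * (q₁ * q₂) * (p ^ 3 * q ^ 2 / w ^ 2) ∧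
      (a 3 : ℝ) + 1 ≤ 151 * E ^ 10 * L * q₂ * (p ^ 5 / w ^ 2 * m ^ 2) := by
  have hE0 : 0 < E := by linarith
  have hL0 : 0 < L := by linarith
  have hr1 : (1 : ℝ) ≤ q₁ := by exact_mod_cast hq₁
  have hr2 : (1 : ℝ) ≤ q₂ := by exact_mod_cast hq₂
  obtain ⟨r₁, hr₁⟩ : ∃ r₁ : ℝ, r₁ = q₁ := ⟨_, rfl⟩
  obtain ⟨r₂, hr₂⟩ : ∃ r₂ : ℝ, r₂ = q₂ := ⟨_, rfl⟩
  rw [← hr₁] at hr1 hM1 hM2 hH ⊢
  rw [← hr₂] at hr2 hG1 hG2 hH ⊢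
  have hr10 : 0 < r₁ := by linarith
  have hr20 : 0 < r₂ := by linarith
  obtain ⟨ν, hν⟩ : ∃ ν : ℝ, (N₁ : ℝ) = ν * (p ^ 2 * q / w) := ⟨N₁ / (p ^ 2 * q / w), by field_simp⟩
  obtain ⟨κ, hκ⟩ : ∃ κ : ℝ, (K₁ : ℝ) = κ * (p * q ^ 2 / w) := ⟨K₁ / (p * q ^ 2 / w), by field_simp⟩
  obtain ⟨μ, hμ⟩ : ∃ μ : ℝ, (M : ℝ) = μ * (p ^ 3 * q / w) / r₁ := ⟨r₁ * M / (p ^ 3 * q / w), by field_simp⟩
  obtain ⟨γ, hγ⟩ : ∃ γ : ℝ, (G : ℝ) = γ * (p * q ^ 3 / w) / r₂ := ⟨r₂ * G / (p * q ^ 3 / w), by field_simp⟩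
  obtain ⟨η, hη⟩ : ∃ η : ℝ, (H : ℝ) = η * (L * (r₁ * r₂) * (p ^ 5 * q ^ 5 / w ^ 4)) :=
    ⟨H / (L * (r₁ * r₂) * (p ^ 5 * q ^ 5 / w ^ 4)), by field_simp⟩
  obtain ⟨ε, hε⟩ : ∃ ε : ℝ, (e : ℝ) = ε * L := ⟨e / L, by field_simp⟩
  have aux1 : ∀ x A : ℝ, 0 < A → A ≤ E * (x * A) → 0 < x ∧ x⁻¹ ≤ E := by
    intro x A hA h
    have h1 : 1 ≤ E * x := by
      by_contra h2
      push Not at h2
      nlinarith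
    have h2 : 0 < x := by
      by_contra h3
      push Not at h3
      nlinarith
    refine ⟨h2, ?_⟩
    rw [inv_le_iff_one_le_mul₀ h2]
    exact h1
  have aux2 : ∀ x A B : ℝ, 0 < A → x * A ≤ B * A → x ≤ B := by
    intro x A B hA h
    exact le_of_mul_le_mul_right h hA
  obtain ⟨hν0, hνi⟩ := aux1 ν (p ^ 2 * q / w) (by positivity) (by rw [← hν]; exact hN1)
  obtain ⟨hκ0, hκi⟩ := aux1 κ (p * q ^ 2 / w) (by positivity) (by rw [← hκ]; exact hK1)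
  have eM : r₁ * (M : ℝ) = μ * (p ^ 3 * q / w) := by rw [hμ]; field_simp
  have eG : r₂ * (G : ℝ) = γ * (p * q ^ 3 / w) := by rw [hγ]; field_simp
  obtain ⟨hμ0, hμi⟩ := aux1 μ (p ^ 3 * q / w) (by positivity) (by rw [← eM]; exact hM1)
  obtain ⟨hγ0, hγi⟩ := aux1 γ (p * q ^ 3 / w) (by positivity) (by rw [← eG]; exact hG1)
  have hνE : ν ≤ E := aux2 ν (p ^ 2 * q / w) E (by positivity) (by rw [← hν]; exact hN2)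
  have hκE : κ ≤ E := aux2 κ (p * q ^ 2 / w) E (by positivity) (by rw [← hκ]; exact hK2)
  have hμE : μ ≤ E := aux2 μ (p ^ 3 * q / w) E (by positivity) (by rw [← eM]; exact hM2)
  have hγE : γ ≤ E := aux2 γ (p * q ^ 3 / w) E (by positivity) (by rw [← eG]; exact hG2)
  have hηE : η ≤ E ^ 4 := aux2 η (L * (r₁ * r₂) * (p ^ 5 * q ^ 5 / w ^ 4)) (E ^ 4) (by positivity)
    (by rw [← hη]; exact hH)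
  have hε1 : ε ≤ 1 := aux2 ε L 1 hL0 (by rw [← hε, one_mul]; exact he)
  have hη0 : 0 ≤ η := by
    have h1 : (0 : ℝ) ≤ H := Nat.cast_nonneg _
    rw [hη] at h1
    exact nonneg_of_mul_nonneg_left h1 (by positivity)
  have hε0 : 0 ≤ ε := by
    have h1 : (0 : ℝ) ≤ e := Nat.cast_nonneg _
    rw [hε] at h1
    exact nonneg_of_mul_nonneg_left h1 hL0
  have hN0 : (N₁ : ℝ) ≠ 0 := by rw [hν]; positivity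
  have hK0 : (K₁ : ℝ) ≠ 0 := by rw [hκ]; positivity
  have hνi0 : 0 < ν⁻¹ := by positivity
  have hκi0 : 0 < κ⁻¹ := by positivity
  have hμi0 : 0 < μ⁻¹ := by positivity
  have hγi0 : 0 < γ⁻¹ := by positivity
  -- the basic real numbers
  have c0 : 32 * (H : ℝ) * G / (N₁ : ℝ) ^ 3 + (K₁ : ℝ) ^ 3 * e / M =
      (32 * η * γ * ν⁻¹ ^ 3 + κ ^ 3 * ε * μ⁻¹) * (L * r₁ * (q ^ 5 / w ^ 2)) := by
    rw [hν, hκ, hμ, hγ, hη, hε]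
    field_simp
  have c1 : 32 * (r₁ : ℝ) * H * M / (N₁ : ℝ) ^ 3 + 2 * r₂ * (N₁ : ℝ) ^ 2 * K₁ * e / M + r₁ * (K₁ : ℝ) ^ 3 * e / G =
      (32 * η * μ * ν⁻¹ ^ 3 + 2 * ν ^ 2 * κ * ε * μ⁻¹ + κ ^ 3 * ε * γ⁻¹) *
        (L * (r₁ * r₂) * (p ^ 2 * q ^ 3 / w ^ 2)) := by
    rw [hν, hκ, hμ, hγ, hη, hε]
    field_simp
  have c2 : ∀ a1 : ℝ, 4 * (N₁ : ℝ) * a1 / K₁ + 5 * r₂ * (N₁ : ℝ) ^ 3 * e / M =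
      4 * ν * κ⁻¹ * (a1 * (p / q)) + 5 * ν ^ 3 * ε * μ⁻¹ * (L * (r₁ * r₂) * (p ^ 3 * q ^ 2 / w ^ 2)) := by
    intro a1
    rw [hν, hκ, hμ, hε]
    field_simp
  have c3 : (N₁ : ℝ) ^ 3 * e / G = ν ^ 3 * ε * γ⁻¹ * (L * r₂ * (p ^ 5 / w ^ 2)) := by
    rw [hν, hγ, hε]
    field_simp
  have hE8 : 1 ≤ E ^ 8 := one_le_pow₀ hE
  have hE48 : E ^ 4 ≤ E ^ 8 := pow_le_pow_right₀ hE (by norm_num)
  have hE810 : E ^ 8 ≤ E ^ 10 := pow_le_pow_right₀ hE (by norm_num)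
  have hE410 : E ^ 4 ≤ E ^ 10 := pow_le_pow_right₀ hE (by norm_num)
  have hE10 : 1 ≤ E ^ 10 := one_le_pow₀ hE
  have b1 : 32 * η * γ * ν⁻¹ ^ 3 ≤ 32 * E ^ 8 := by
    calc 32 * η * γ * ν⁻¹ ^ 3 ≤ 32 * E ^ 4 * E * E ^ 3 := by gcongr
      _ = 32 * E ^ 8 := by ring
  have b2 : κ ^ 3 * ε * μ⁻¹ ≤ E ^ 4 := by
    calc κ ^ 3 * ε * μ⁻¹ ≤ E ^ 3 * 1 * E := by gcongr
      _ = E ^ 4 := by ring
  have b3 : 32 * η * μ * ν⁻¹ ^ 3 ≤ 32 * E ^ 8 := by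
    calc 32 * η * μ * ν⁻¹ ^ 3 ≤ 32 * E ^ 4 * E * E ^ 3 := by gcongr
      _ = 32 * E ^ 8 := by ring
  have b4 : 2 * ν ^ 2 * κ * ε * μ⁻¹ ≤ 2 * E ^ 4 := by
    calc 2 * ν ^ 2 * κ * ε * μ⁻¹ ≤ 2 * E ^ 2 * E * 1 * E := by gcongr
      _ = 2 * E ^ 4 := by ring
  have b5 : κ ^ 3 * ε * γ⁻¹ ≤ E ^ 4 := by
    calc κ ^ 3 * ε * γ⁻¹ ≤ E ^ 3 * 1 * E := by gcongr
      _ = E ^ 4 := by ring
  have b6 : 4 * ν * κ⁻¹ ≤ 4 * E ^ 2 := by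
    calc 4 * ν * κ⁻¹ ≤ 4 * E * E := by gcongr
      _ = 4 * E ^ 2 := by ring
  have b7 : 5 * ν ^ 3 * ε * μ⁻¹ ≤ 5 * E ^ 4 := by
    calc 5 * ν ^ 3 * ε * μ⁻¹ ≤ 5 * E ^ 3 * 1 * E := by gcongr
      _ = 5 * E ^ 4 := by ring
  have b8 : ν ^ 3 * ε * γ⁻¹ ≤ E ^ 4 := by
    calc ν ^ 3 * ε * γ⁻¹ ≤ E ^ 3 * 1 * E := by gcongr
      _ = E ^ 4 := by ring
  obtain ⟨vA, hvA⟩ : ∃ vA, vA = q ^ 5 / w ^ 2 := ⟨_, rfl⟩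
  obtain ⟨vA', hvA'⟩ : ∃ vA', vA' = p ^ 2 * q ^ 3 / w ^ 2 := ⟨_, rfl⟩
  obtain ⟨vB, hvB⟩ : ∃ vB, vB = p ^ 3 * q ^ 2 / w ^ 2 := ⟨_, rfl⟩
  obtain ⟨vX, hvX⟩ : ∃ vX, vX = p ^ 5 / w ^ 2 := ⟨_, rfl⟩
  have hpq : vA' * (p / q) = vB := by rw [hvA', hvB]; field_simp
  rw [← hvA] at hA c0 ⊢
  rw [← hvA'] at hA' c1 ⊢
  rw [← hvB] at hB c2 ⊢
  rw [← hvX] at hX c3 ⊢
  have hvA0 : 0 < vA := by linarith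
  have hvA'0 : 0 < vA' := by linarith
  have hvB0 : 0 < vB := by linarith
  have hvX0 : 0 < vX := by rw [hvX]; positivity
  have hm2 : 1 ≤ m ^ 2 := one_le_pow₀ hm
  have hrr : 1 ≤ r₁ * r₂ := one_le_mul_of_one_le_of_one_le hr1 hr2
  have w0 : 1 ≤ L * r₁ * vA := one_le_mul_of_one_le_of_one_le (one_le_mul_of_one_le_of_one_le hL hr1) hA
  have w1 : 1 ≤ L * (r₁ * r₂) * vA' :=
    one_le_mul_of_one_le_of_one_le (one_le_mul_of_one_le_of_one_le hL hrr) hA'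
  have w2 : 1 ≤ L * (r₁ * r₂) * vB :=
    one_le_mul_of_one_le_of_one_le (one_le_mul_of_one_le_of_one_le hL hrr) hB
  have w3 : 1 ≤ L * r₂ * (vX * m ^ 2) :=
    one_le_mul_of_one_le_of_one_le (one_le_mul_of_one_le_of_one_le hL hr2) hX
  obtain ⟨A0, hA0⟩ : ∃ A0 : ℕ, A0 = ⌈(32 * η * γ * ν⁻¹ ^ 3 + κ ^ 3 * ε * μ⁻¹) * (L * r₁ * vA)⌉₊ := ⟨_, rfl⟩
  obtain ⟨A1, hA1⟩ : ∃ A1 : ℕ, A1 = ⌈(32 * η * μ * ν⁻¹ ^ 3 + 2 * ν ^ 2 * κ * ε * μ⁻¹ + κ ^ 3 * ε * γ⁻¹) *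
        (L * (r₁ * r₂) * vA')⌉₊ := ⟨_, rfl⟩
  obtain ⟨A2, hA2⟩ : ∃ A2 : ℕ, A2 = ⌈4 * ν * κ⁻¹ * (A1 * (p / q)) +
    5 * ν ^ 3 * ε * μ⁻¹ * (L * (r₁ * r₂) * vB)⌉₊ := ⟨_, rfl⟩
  obtain ⟨A3, hA3⟩ : ∃ A3 : ℕ, A3 = ⌈ν ^ 3 * ε * γ⁻¹ * (L * r₂ * vX)⌉₊ := ⟨_, rfl⟩
  have l0 := hA0 ▸ Nat.le_ceil ((32 * η * γ * ν⁻¹ ^ 3 + κ ^ 3 * ε * μ⁻¹) * (L * r₁ * vA))
  have l1 := hA1 ▸ Nat.le_ceil ((32 * η * μ * ν⁻¹ ^ 3 + 2 * ν ^ 2 * κ * ε * μ⁻¹ + κ ^ 3 * ε * γ⁻¹) *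
        (L * (r₁ * r₂) * vA'))
  have l2 := hA2 ▸ Nat.le_ceil (4 * ν * κ⁻¹ * (A1 * (p / q)) +
    5 * ν ^ 3 * ε * μ⁻¹ * (L * (r₁ * r₂) * vB))
  have l3 := hA3 ▸ Nat.le_ceil (ν ^ 3 * ε * γ⁻¹ * (L * r₂ * vX))
  have u0 := hA0 ▸ Nat.ceil_lt_add_one (show 0 ≤ (32 * η * γ * ν⁻¹ ^ 3 + κ ^ 3 * ε * μ⁻¹) * (L * r₁ * vA)
    by positivity)
  have u1 := hA1 ▸ Nat.ceil_lt_add_one (show 0 ≤ (32 * η * μ * ν⁻¹ ^ 3 + 2 * ν ^ 2 * κ * ε * μ⁻¹ +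
    κ ^ 3 * ε * γ⁻¹) * (L * (r₁ * r₂) * vA') by positivity)
  have u2 := hA2 ▸ Nat.ceil_lt_add_one (show 0 ≤ 4 * ν * κ⁻¹ * (A1 * (p / q)) +
    5 * ν ^ 3 * ε * μ⁻¹ * (L * (r₁ * r₂) * vB) by positivity)
  have u3 := hA3 ▸ Nat.ceil_lt_add_one (show 0 ≤ ν ^ 3 * ε * γ⁻¹ * (L * r₂ * vX) by positivity)
  have v0 : (A0 : ℝ) + 1 ≤ 151 * E ^ 10 * L * r₁ * vA := by
    have f1 : (32 * η * γ * ν⁻¹ ^ 3 + κ ^ 3 * ε * μ⁻¹) * (L * r₁ * vA) ≤ (33 * E ^ 8) * (L * r₁ * vA) :=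
      mul_le_mul_of_nonneg_right (by linarith) (by positivity)
    have f2 : (35 * E ^ 8) * (L * r₁ * vA) ≤ (151 * E ^ 10) * (L * r₁ * vA) :=
      mul_le_mul_of_nonneg_right (by linarith) (by positivity)
    have f3 : 1 ≤ E ^ 8 * (L * r₁ * vA) := one_le_mul_of_one_le_of_one_le hE8 w0
    have f4 : 151 * E ^ 10 * L * r₁ * vA = (151 * E ^ 10) * (L * r₁ * vA) := by ring
    rw [f4]
    linarith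
  have v1' : (A1 : ℝ) + 1 ≤ 37 * E ^ 8 * (L * (r₁ * r₂) * vA') := by
    have f1 : (32 * η * μ * ν⁻¹ ^ 3 + 2 * ν ^ 2 * κ * ε * μ⁻¹ + κ ^ 3 * ε * γ⁻¹) * (L * (r₁ * r₂) * vA') ≤
      (35 * E ^ 8) * (L * (r₁ * r₂) * vA') :=
      mul_le_mul_of_nonneg_right (by linarith) (by positivity)
    have f3 : 1 ≤ E ^ 8 * (L * (r₁ * r₂) * vA') := one_le_mul_of_one_le_of_one_le hE8 w1
    linarith
  have v1 : (A1 : ℝ) + 1 ≤ 151 * E ^ 10 * L * (r₁ * r₂) * vA' := by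
    refine v1'.trans ?_
    have f4 : 151 * E ^ 10 * L * (r₁ * r₂) * vA' = (151 * E ^ 10) * (L * (r₁ * r₂) * vA') := by ring
    rw [f4]
    exact mul_le_mul_of_nonneg_right (by linarith) (by positivity)
  have v2 : (A2 : ℝ) + 1 ≤ 151 * E ^ 10 * L * (r₁ * r₂) * vB := by
    have f1 : 4 * ν * κ⁻¹ * (A1 * (p / q)) ≤ 4 * E ^ 2 * (36 * E ^ 8 * (L * (r₁ * r₂) * vB)) := by
      apply mul_le_mul b6 _ (by positivity) (by positivity)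
      have g1 : (A1 : ℝ) ≤ 36 * E ^ 8 * (L * (r₁ * r₂) * vA') := by
        have f1 : (32 * η * μ * ν⁻¹ ^ 3 + 2 * ν ^ 2 * κ * ε * μ⁻¹ + κ ^ 3 * ε * γ⁻¹) * (L * (r₁ * r₂) * vA') ≤
          (35 * E ^ 8) * (L * (r₁ * r₂) * vA') :=
          mul_le_mul_of_nonneg_right (by linarith) (by positivity)
        have f3 : 1 ≤ E ^ 8 * (L * (r₁ * r₂) * vA') := one_le_mul_of_one_le_of_one_le hE8 w1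
        linarith
      have g2 := mul_le_mul_of_nonneg_right g1 (show 0 ≤ p / q by positivity)
      refine g2.trans (le_of_eq ?_)
      rw [← hpq]
      ring
    have f2 : 5 * ν ^ 3 * ε * μ⁻¹ * (L * (r₁ * r₂) * vB) ≤ 5 * E ^ 4 * (L * (r₁ * r₂) * vB) :=
      mul_le_mul_of_nonneg_right b7 (by positivity)
    have f3 : 1 ≤ E ^ 10 * (L * (r₁ * r₂) * vB) := one_le_mul_of_one_le_of_one_le hE10 w2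
    have f4 : 5 * E ^ 4 * (L * (r₁ * r₂) * vB) ≤ 5 * E ^ 10 * (L * (r₁ * r₂) * vB) :=
      mul_le_mul_of_nonneg_right (by linarith) (by positivity)
    have f5 : 4 * E ^ 2 * (36 * E ^ 8 * (L * (r₁ * r₂) * vB)) = 144 * (E ^ 10 * (L * (r₁ * r₂) * vB)) := by ring
    have f6 : 151 * E ^ 10 * L * (r₁ * r₂) * vB = 151 * (E ^ 10 * (L * (r₁ * r₂) * vB)) := by ring
    have f7 : 5 * E ^ 10 * (L * (r₁ * r₂) * vB) = 5 * (E ^ 10 * (L * (r₁ * r₂) * vB)) := by ring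
    rw [f6]
    rw [f5] at f1
    rw [f7] at f4
    linarith
  have v3 : (A3 : ℝ) + 1 ≤ 151 * E ^ 10 * L * r₂ * (vX * m ^ 2) := by
    have f1 : ν ^ 3 * ε * γ⁻¹ * (L * r₂ * vX) ≤ E ^ 10 * (L * r₂ * (vX * m ^ 2)) := by
      apply mul_le_mul (b8.trans hE410) _ (by positivity) (by positivity)
      apply mul_le_mul_of_nonneg_left _ (by positivity)
      exact le_mul_of_one_le_right hvX0.le hm2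
    have f3 : 1 ≤ E ^ 10 * (L * r₂ * (vX * m ^ 2)) := one_le_mul_of_one_le_of_one_le hE10 w3
    have f6 : 151 * E ^ 10 * L * r₂ * (vX * m ^ 2) = 151 * (E ^ 10 * (L * r₂ * (vX * m ^ 2))) := by ring
    rw [f6]
    linarith
  refine ⟨![A0, A1, A2, A3], ⟨?_, ?_, ?_, ?_⟩, v0, v1, v2, v3⟩
  · show 32 * (H : ℝ) * G / (N₁ : ℝ) ^ 3 + (K₁ : ℝ) ^ 3 * e / M ≤ (A0 : ℝ)
    rw [c0]; exact l0
  · show 32 * (q₁ : ℝ) * H * M / (N₁ : ℝ) ^ 3 + 2 * q₂ * (N₁ : ℝ) ^ 2 * K₁ * e / M + q₁ * (K₁ : ℝ) ^ 3 * e / G ≤ (A1 : ℝ)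
    rw [← hr₁, ← hr₂, c1]; exact l1
  · show 4 * (N₁ : ℝ) * (A1 : ℝ) / K₁ + 5 * q₂ * (N₁ : ℝ) ^ 3 * e / M ≤ (A2 : ℝ)
    rw [← hr₂, c2]; exact l2
  · show (N₁ : ℝ) ^ 3 * e / G ≤ (A3 : ℝ)
    rw [c3]; exact l3

end Pool.Agent.T5
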