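import Pool.Agent.helper11.T5.NumLib
import Pool.Agent.helper11.T5.NumSides

set_option autoImplicit false

/-!
# T5, common part of the rows NUMC and NUMT: the general bound
-/

namespace Pool.Agent.T5

open Finset NumberField Pool.Agent.helper3.FT Pool.Agent.helper47.RA

theorem NUM_gen (E L m p q w : ℝ) (N₁ K₁ M G H e q₁ q₂ y : ℕ)
    (hE : 1 ≤ E) (hL : 1 ≤ L) (hm : 1 ≤ m) (hp : 0 < p) (hq : 0 < q) (hw : 0 < w)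
    (hq₁ : 1 ≤ q₁) (hq₂ : 1 ≤ q₂) (he1 : 1 ≤ e) (he : (e : ℝ) ≤ L) (hy : 1 ≤ y)
    (hN1 : p ^ 2 * q / w ≤ E * N₁) (hN2 : (N₁ : ℝ) ≤ E * (p ^ 2 * q / w))
    (hK1 : p * q ^ 2 / w ≤ E * K₁) (hK2 : (K₁ : ℝ) ≤ E * (p * q ^ 2 / w))
    (hM1 : p ^ 3 * q / w ≤ E * (q₁ * M))
    (hG1 : p * q ^ 3 / w ≤ E * (q₂ * G))
    (hM2 : (q₁ * M : ℝ) ≤ E * (p ^ 3 * q / w))
    (hG2 : (q₂ * G : ℝ) ≤ E * (p * q ^ 3 / w))
    (hH : (H : ℝ) ≤ E ^ 4 * (L * (q₁ * q₂) * (p ^ 5 * q ^ 5 / w ^ 4)))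
    (hpq : p ≤ q) (hA' : 1 ≤ p ^ 2 * q ^ 3 / w ^ 2) (hB : 1 ≤ p ^ 3 * q ^ 2 / w ^ 2)
    (hX : 1 ≤ p ^ 5 / w ^ 2 * m ^ 2) (hXA : p ^ 5 / w ^ 2 * m ^ 2 ≤ q ^ 5 / w ^ 2)
    (h48 : w ^ 4 ≤ p ^ 8 * q ^ 2) :
    ∃ a : Fin 4 → ℕ, Sides N₁ K₁ M G H e q₁ q₂ a ∧
      (∀ i, (a i : ℝ) ≤ 151 * E ^ 10 * L * (q₁ * q₂) * (q ^ 5 / w ^ 2)) ∧
      √((M : ℝ) * G) * nB N₁ K₁ H y q₁ q₂ e a ≤
        8 * (151 * E ^ 10) ^ 2 * E ^ 7 * L ^ 3 * (q₁ * q₂) * (p ^ 5 * q ^ 5 / w ^ 4) * m *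
          (1 + √(q₁ * q₂ * y * (p ^ 2 * q ^ 2 / w ^ 2))) * (p ^ 5 * q ^ 5 / w ^ 3) / y := by
  have hA : 1 ≤ q ^ 5 / w ^ 2 := hX.trans hXA
  have hE0 : 0 < E := by linarith
  have hL0 : 0 < L := by linarith
  have hm0 : 0 < m := by linarith
  obtain ⟨a, hS, x0, x1, x2, x3⟩ := NUM_sides E L m p q w N₁ K₁ M G H e q₁ q₂ hE hL hm hp hq hw hq₁ hq₂ he
    hN1 hN2 hK1 hK2 hM1 hG1 hM2 hG2 hH hA hA' hB hX
  have hr1 : (1 : ℝ) ≤ q₁ := by exact_mod_cast hq₁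
  have hr2 : (1 : ℝ) ≤ q₂ := by exact_mod_cast hq₂
  have hyr : (1 : ℝ) ≤ y := by exact_mod_cast hy
  have her : (1 : ℝ) ≤ e := by exact_mod_cast he1
  obtain ⟨r₁, hr₁⟩ : ∃ r₁ : ℝ, r₁ = q₁ := ⟨_, rfl⟩
  obtain ⟨r₂, hr₂⟩ : ∃ r₂ : ℝ, r₂ = q₂ := ⟨_, rfl⟩
  obtain ⟨z, hz⟩ : ∃ z : ℝ, z = y := ⟨_, rfl⟩
  rw [← hr₁] at hr1 hM1 hM2 hH x0 x1 x2 ⊢
  rw [← hr₂] at hr2 hG1 hG2 hH x1 x2 x3 ⊢
  rw [← hz] at hyr ⊢
  have hrr : 1 ≤ r₁ * r₂ := one_le_mul_of_one_le_of_one_le hr1 hr2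
  obtain ⟨s, hs⟩ : ∃ s, s = √(r₁ * r₂) := ⟨_, rfl⟩
  have hss : s ^ 2 = r₁ * r₂ := by rw [hs]; exact Real.sq_sqrt (by positivity)
  have hs0 : 0 ≤ s := hs ▸ Real.sqrt_nonneg _
  have hs1 : 1 ≤ s := by
    by_contra h
    push Not at h
    nlinarith
  have hvA0 : 0 < q ^ 5 / w ^ 2 := by positivity
  have h6 : p ^ 2 * q ^ 3 / w ^ 2 ≤ q ^ 5 / w ^ 2 := by
    apply div_le_div_of_nonneg_right _ (by positivity)
    have : q ^ 5 = q ^ 2 * q ^ 3 := by ring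
    rw [this]
    gcongr
  have h7 : p ^ 3 * q ^ 2 / w ^ 2 ≤ q ^ 5 / w ^ 2 := by
    apply div_le_div_of_nonneg_right _ (by positivity)
    have : q ^ 5 = q ^ 3 * q ^ 2 := by ring
    rw [this]
    gcongr
  have h8 : q ^ 5 / w ^ 2 * (p ^ 2 * q ^ 3 / w ^ 2) ≤ (p ^ 5 * q ^ 5 / w ^ 4) ^ 2 := by
    have e1 : (p ^ 5 * q ^ 5 / w ^ 4) ^ 2 = (p ^ 2 * q ^ 8 / w ^ 8) * (p ^ 8 * q ^ 2) := by field_simp
    have e2 : q ^ 5 / w ^ 2 * (p ^ 2 * q ^ 3 / w ^ 2) = (p ^ 2 * q ^ 8 / w ^ 8) * w ^ 4 := by field_simp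
    rw [e1, e2]
    exact mul_le_mul_of_nonneg_left h48 (by positivity)
  have hPS : p ^ 5 * q ^ 5 / w ^ 4 ≤ E ^ 2 * (((N₁ : ℝ) * K₁) * (p ^ 2 * q ^ 2 / w ^ 2)) := by
    have e1 : (p ^ 2 * q / w) * (p * q ^ 2 / w) ≤ (E * N₁) * (E * K₁) :=
      mul_le_mul hN1 hK1 (by positivity) (by positivity)
    have e2 : p ^ 5 * q ^ 5 / w ^ 4 = ((p ^ 2 * q / w) * (p * q ^ 2 / w)) * (p ^ 2 * q ^ 2 / w ^ 2) := by
      field_simp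
    have e3 : E ^ 2 * (((N₁ : ℝ) * K₁) * (p ^ 2 * q ^ 2 / w ^ 2)) =
      ((E * N₁) * (E * K₁)) * (p ^ 2 * q ^ 2 / w ^ 2) := by ring
    rw [e2, e3]
    exact mul_le_mul_of_nonneg_right e1 (by positivity)
  have hN0 : (0 : ℝ) < N₁ := by
    have : 0 < E * N₁ := lt_of_lt_of_le (by positivity) hN1
    exact (mul_pos_iff_of_pos_left hE0).1 this
  have hK0 : (0 : ℝ) < K₁ := by
    have : 0 < E * K₁ := lt_of_lt_of_le (by positivity) hK1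
    exact (mul_pos_iff_of_pos_left hE0).1 this
  have key := NUM_nB E (151 * E ^ 10) L m s r₁ r₂ (q ^ 5 / w ^ 2) (p ^ 2 * q ^ 3 / w ^ 2)
    (p ^ 3 * q ^ 2 / w ^ 2) (p ^ 5 / w ^ 2) (p ^ 5 * q ^ 5 / w ^ 4) ((N₁ : ℝ) * K₁) (p ^ 2 * q ^ 2 / w ^ 2)
    z H e (a 0) (a 1) (a 2) (a 3) hE (by nlinarith [one_le_pow₀ hE (n := 10)]) hL hm hss hs1 hr1 hr2 hX
    (by positivity) (by positivity) (by field_simp) (by field_simp) h6 h7 h8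
    (by rw [hss]; refine hH.trans (le_of_eq ?_); ring) her he (by positivity) (by positivity) (by positivity)
    (by positivity) x0 (by rw [hss]; exact x1) (by rw [hss]; exact x2) x3 (by linarith)
    (by positivity) (by positivity) hPS
  refine ⟨a, hS, ?_, ?_⟩
  · have f0 : 0 ≤ 151 * E ^ 10 * L := by positivity
    intro i
    fin_cases i
    · show (a 0 : ℝ) ≤ _
      have f1 : 151 * E ^ 10 * L * r₁ ≤ 151 * E ^ 10 * L * (r₁ * r₂) := by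
        apply mul_le_mul_of_nonneg_left _ f0
        exact le_mul_of_one_le_right (by linarith) hr2
      have f2 := mul_le_mul_of_nonneg_right f1 hvA0.le
      linarith
    · show (a 1 : ℝ) ≤ _
      have f2 := mul_le_mul_of_nonneg_left h6 (show 0 ≤ 151 * E ^ 10 * L * (r₁ * r₂) by positivity)
      linarith
    · show (a 2 : ℝ) ≤ _
      have f2 := mul_le_mul_of_nonneg_left h7 (show 0 ≤ 151 * E ^ 10 * L * (r₁ * r₂) by positivity)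
      linarith
    · show (a 3 : ℝ) ≤ _
      have f1 : 151 * E ^ 10 * L * r₂ ≤ 151 * E ^ 10 * L * (r₁ * r₂) := by
        apply mul_le_mul_of_nonneg_left _ f0
        exact le_mul_of_one_le_left (by linarith) hr1
      have f2 := mul_le_mul f1 hXA (by positivity) (by positivity)
      linarith
  · have hnB : nB N₁ K₁ H y q₁ q₂ e a = (H : ℝ) * ((N₁ : ℝ) * K₁) / z +
        √((2 * (a 0 : ℝ) + 1) * (2 * a 1 + 1) * (2 * a 2 + 1) * (2 * a 3 + 1)) *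
          (√((H : ℝ) * ((N₁ : ℝ) * K₁) / z) + (N₁ : ℝ) * K₁ / z) +
        √(H * ((r₂ * a 0) * (r₁ * e * a 3) + (a 1 + 1) * (e * a 2 + 1) + (a 1 + 1) * (r₁ * e * a 3 + 1) +
          (e * a 2 + 1) * (r₁ * e * a 3 + 1) + r₂ * a 0 + a 0 + a 1) + a 0 * a 1) *
          ((N₁ : ℝ) * K₁ / z) := by
      rw [nB, Fin.prod_univ_four, hr₁, hr₂, hz, mul_assoc (H : ℝ) (N₁ : ℝ) (K₁ : ℝ)]
    rw [hnB]
    have hMG : √((M : ℝ) * G) * s ≤ E * (p ^ 2 * q ^ 2 / w) := by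
      rw [hs, ← Real.sqrt_mul (by positivity)]
      apply Real.sqrt_le_iff.2
      refine ⟨by positivity, ?_⟩
      have e1 : (M : ℝ) * G * (r₁ * r₂) = (r₁ * M) * (r₂ * G) := by ring
      have e2 : (E * (p ^ 2 * q ^ 2 / w)) ^ 2 = (E * (p ^ 3 * q / w)) * (E * (p * q ^ 3 / w)) := by
        field_simp
      rw [e1, e2]
      exact mul_le_mul hM2 hG2 (by positivity) (by positivity)
    have hP2 : (N₁ : ℝ) * K₁ ≤ E ^ 2 * (p ^ 3 * q ^ 3 / w ^ 2) := by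
      have e1 := mul_le_mul hN2 hK2 (by positivity) (by positivity)
      refine e1.trans (le_of_eq ?_)
      field_simp
    obtain ⟨t, ht⟩ : ∃ t, t = √((M : ℝ) * G) := ⟨_, rfl⟩
    have ht0 : 0 ≤ t := ht ▸ Real.sqrt_nonneg _
    have f1 := mul_le_mul_of_nonneg_left key ht0
    rw [← ht] at hMG ⊢
    refine f1.trans ?_
    obtain ⟨r, hr⟩ : ∃ r, r = 1 + √(s ^ 2 * z * (p ^ 2 * q ^ 2 / w ^ 2)) := ⟨_, rfl⟩
    have hr0 : 0 < r := by rw [hr]; positivity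
    have hr' : 1 + √(r₁ * r₂ * z * (p ^ 2 * q ^ 2 / w ^ 2)) = r := by rw [hr, hss]
    rw [← hr, hr']
    have e1 : t * (8 * (151 * E ^ 10) ^ 2 * E ^ 4 * L ^ 3 * s ^ 3 * (p ^ 5 * q ^ 5 / w ^ 4) * m * r *
        ((N₁ : ℝ) * K₁ / z)) =
        (8 * (151 * E ^ 10) ^ 2 * E ^ 4 * L ^ 3 * s ^ 2 * (p ^ 5 * q ^ 5 / w ^ 4) * m * r / z) *
        ((t * s) * ((N₁ : ℝ) * K₁)) := by ring
    have e2 : 8 * (151 * E ^ 10) ^ 2 * E ^ 7 * L ^ 3 * (r₁ * r₂) * (p ^ 5 * q ^ 5 / w ^ 4) * m *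
          r * (p ^ 5 * q ^ 5 / w ^ 3) / z =
        (8 * (151 * E ^ 10) ^ 2 * E ^ 4 * L ^ 3 * s ^ 2 * (p ^ 5 * q ^ 5 / w ^ 4) * m * r / z) *
        ((E * (p ^ 2 * q ^ 2 / w)) * (E ^ 2 * (p ^ 3 * q ^ 3 / w ^ 2))) := by
      rw [hss]
      field_simp
    rw [e1, e2]
    apply mul_le_mul_of_nonneg_left _ (by positivity)
    exact mul_le_mul hMG hP2 (by positivity) (by positivity)

/-- monomials are bounded below -/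
theorem NUM_low (N p q : ℝ) (hN : 1 ≤ N) (hp : N ^ (0.1925 : ℝ) ≤ p) (hq : N ^ (0.25 : ℝ) ≤ q) (i j : ℕ)
    (c : ℝ) (hc : c ≤ 0.1925 * i + 0.25 * j) : N ^ c ≤ p ^ i * q ^ j := by
  have hN0 : 0 < N := by linarith
  have hp0 : 0 ≤ p := le_trans (by positivity) hp
  have hq0 : 0 ≤ q := le_trans (by positivity) hq
  calc N ^ c ≤ N ^ (0.1925 * (i : ℝ) + 0.25 * j) := Real.rpow_le_rpow_of_exponent_le hN hc
    _ = (N ^ (0.1925 : ℝ)) ^ i * (N ^ (0.25 : ℝ)) ^ j := by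
        rw [Real.rpow_add hN0, Real.rpow_mul hN0.le, Real.rpow_mul hN0.le, Real.rpow_natCast,
          Real.rpow_natCast]
    _ ≤ p ^ i * q ^ j := by gcongr

end Pool.Agent.T5
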