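import Pool.Agent.helper95.T5.SpecE

set_option autoImplicit false

/-!
# T5, common part of the rows NUMC and NUMT
-/

namespace Pool.Agent.T5

open Finset NumberField Pool.Agent.helper3.FT Pool.Agent.helper47.RA

theorem NUM_prod (B L m s q₁ q₂ vA vA' vB vX h0 a0 a1 a2 a3 : ℝ)
    (hB : 1 ≤ B) (hL : 1 ≤ L) (hm : 1 ≤ m) (hs : s ^ 2 = q₁ * q₂) (hs0 : 1 ≤ s)
    (hh0 : 0 < h0) (h4 : vA * vX = h0) (h5 : vA' * vB = h0)
    (ha0 : 0 ≤ a0) (ha1 : 0 ≤ a1) (ha2 : 0 ≤ a2) (ha3 : 0 ≤ a3)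
    (hx0 : a0 + 1 ≤ B * L * q₁ * vA) (hx1 : a1 + 1 ≤ B * L * s ^ 2 * vA')
    (hx2 : a2 + 1 ≤ B * L * s ^ 2 * vB) (hx3 : a3 + 1 ≤ B * L * q₂ * (vX * m ^ 2)) :
    √((2 * a0 + 1) * (2 * a1 + 1) * (2 * a2 + 1) * (2 * a3 + 1)) ≤ 4 * B ^ 2 * L ^ 2 * s ^ 3 * h0 * m := by
  apply Real.sqrt_le_iff.2
  refine ⟨by positivity, ?_⟩
  have e0 : 2 * a0 + 1 ≤ 2 * (B * L * q₁ * vA) := by linarith
  have e1 : 2 * a1 + 1 ≤ 2 * (B * L * s ^ 2 * vA') := by linarith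
  have e2 : 2 * a2 + 1 ≤ 2 * (B * L * s ^ 2 * vB) := by linarith
  have e3 : 2 * a3 + 1 ≤ 2 * (B * L * q₂ * (vX * m ^ 2)) := by linarith
  have f1 := mul_le_mul e0 e1 (by positivity) (by linarith)
  have f2 := mul_le_mul f1 e2 (by positivity) (le_trans (by positivity) f1)
  have f3 := mul_le_mul f2 e3 (by positivity) (le_trans (by positivity) f2)
  refine f3.trans (le_of_eq ?_)
  have g1 : 2 * (B * L * q₁ * vA) * (2 * (B * L * s ^ 2 * vA')) * (2 * (B * L * s ^ 2 * vB)) *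
      (2 * (B * L * q₂ * (vX * m ^ 2))) =
      16 * B ^ 4 * L ^ 4 * s ^ 4 * (q₁ * q₂) * (vA * vX) * (vA' * vB) * m ^ 2 := by ring
  rw [g1, h4, h5, ← hs]
  ring

theorem NUM_bracket (E B L m s q₁ q₂ vA vA' vB vX h0 H e a0 a1 a2 a3 : ℝ)
    (hE : 1 ≤ E) (hB : 1 ≤ B) (hL : 1 ≤ L) (hm : 1 ≤ m) (hs : s ^ 2 = q₁ * q₂) (hs0 : 1 ≤ s)
    (hq₁ : 1 ≤ q₁) (hq₂ : 1 ≤ q₂) (h3 : 1 ≤ vX * m ^ 2) (hA' : 0 < vA')
    (hh0 : 0 < h0) (h4 : vA * vX = h0) (h5 : vA' * vB = h0) (h6 : vA' ≤ vA) (h7 : vB ≤ vA)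
    (h8 : vA * vA' ≤ h0 ^ 2) (hH : H ≤ E ^ 4 * L * s ^ 2 * h0)
    (he1 : 1 ≤ e) (he : e ≤ L)
    (ha0 : 0 ≤ a0) (ha1 : 0 ≤ a1) (ha2 : 0 ≤ a2) (ha3 : 0 ≤ a3)
    (hx0 : a0 + 1 ≤ B * L * q₁ * vA) (hx1 : a1 + 1 ≤ B * L * s ^ 2 * vA')
    (hx2 : a2 + 1 ≤ B * L * s ^ 2 * vB) (hx3 : a3 + 1 ≤ B * L * q₂ * (vX * m ^ 2)) :
    √(H * ((q₂ * a0) * (q₁ * e * a3) + (a1 + 1) * (e * a2 + 1) + (a1 + 1) * (q₁ * e * a3 + 1) +
      (e * a2 + 1) * (q₁ * e * a3 + 1) + q₂ * a0 + a0 + a1) + a0 * a1) ≤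
      3 * E ^ 2 * B * L ^ 3 * s ^ 3 * h0 * m := by
  apply Real.sqrt_le_iff.2
  refine ⟨by positivity, ?_⟩
  have hA : 0 < vA := hA'.trans_le h6
  have hL0 : 0 < L := by linarith
  have hB0 : 0 < B := by linarith
  have hm0 : 0 < m := by linarith
  have hm2 : 1 ≤ m ^ 2 := one_le_pow₀ hm
  have hs2 : 1 ≤ s ^ 2 := one_le_pow₀ hs0
  have hL2 : 1 ≤ L ^ 2 := one_le_pow₀ hL
  have hL3 : 1 ≤ L ^ 3 := one_le_pow₀ hL
  -- the basic bounds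
  have u0 : q₂ * a0 ≤ B * L * s ^ 2 * vA := by
    have := mul_le_mul_of_nonneg_left (show a0 ≤ B * L * q₁ * vA by linarith) (show 0 ≤ q₂ by linarith)
    refine this.trans (le_of_eq ?_)
    rw [hs]; ring
  have u3 : q₁ * e * a3 + 1 ≤ B * L ^ 2 * s ^ 2 * (vX * m ^ 2) := by
    have hqe : 1 ≤ q₁ * e := by nlinarith
    have f1 : q₁ * e * a3 + 1 ≤ q₁ * e * (a3 + 1) := by nlinarith
    have f2 : q₁ * e * (a3 + 1) ≤ q₁ * L * (B * L * q₂ * (vX * m ^ 2)) := by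
      apply mul_le_mul _ hx3 (by positivity) (by positivity)
      exact mul_le_mul_of_nonneg_left he (by linarith)
    refine (f1.trans f2).trans (le_of_eq ?_)
    rw [hs]; ring
  have u2 : e * a2 + 1 ≤ B * L ^ 2 * s ^ 2 * vB := by
    have f1 : e * a2 + 1 ≤ e * (a2 + 1) := by nlinarith
    have f2 : e * (a2 + 1) ≤ L * (B * L * s ^ 2 * vB) :=
      mul_le_mul he hx2 (by positivity) (by positivity)
    refine (f1.trans f2).trans (le_of_eq ?_)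
    ring
  have hqea : 0 ≤ q₁ * e * a3 := by positivity
  have hea : 0 ≤ e * a2 := by positivity
  have hW : B * L * s ^ 2 * vA ≤ B ^ 2 * L ^ 4 * s ^ 4 * h0 * m ^ 2 := by
    have f1 : vA ≤ h0 * m ^ 2 := by
      rw [← h4]
      have := mul_le_mul_of_nonneg_left h3 hA.le
      nlinarith
    have f2 : B * L * s ^ 2 ≤ B ^ 2 * L ^ 4 * s ^ 4 := by
      have g1 : B * L * s ^ 2 = (B * L * s ^ 2) * 1 := by ring
      have g2 : B ^ 2 * L ^ 4 * s ^ 4 = (B * L * s ^ 2) * (B * L ^ 3 * s ^ 2) := by ring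
      rw [g1, g2]
      apply mul_le_mul_of_nonneg_left _ (by positivity)
      have : 1 ≤ B * L ^ 3 := by nlinarith
      nlinarith
    calc B * L * s ^ 2 * vA ≤ (B ^ 2 * L ^ 4 * s ^ 4) * (h0 * m ^ 2) :=
          mul_le_mul f2 f1 hA.le (by positivity)
      _ = _ := by ring
  obtain ⟨W, hWd⟩ : ∃ W, W = B ^ 2 * L ^ 4 * s ^ 4 * h0 * m ^ 2 := ⟨_, rfl⟩
  rw [← hWd] at hW
  have t1 : (q₂ * a0) * (q₁ * e * a3) ≤ W := by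
    have f1 : (q₂ * a0) * (q₁ * e * a3) ≤ (B * L * s ^ 2 * vA) * (B * L ^ 2 * s ^ 2 * (vX * m ^ 2)) :=
      mul_le_mul u0 (by linarith) hqea (by positivity)
    refine f1.trans ?_
    have f2 : (B * L * s ^ 2 * vA) * (B * L ^ 2 * s ^ 2 * (vX * m ^ 2)) =
        (B ^ 2 * L ^ 3 * s ^ 4 * m ^ 2 * (vA * vX)) * 1 := by ring
    have f3 : W = (B ^ 2 * L ^ 3 * s ^ 4 * m ^ 2 * h0) * L := by rw [hWd]; ring
    rw [f2, f3, h4]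
    exact mul_le_mul_of_nonneg_left hL (by positivity)
  have t2 : (a1 + 1) * (e * a2 + 1) ≤ W := by
    have f1 : (a1 + 1) * (e * a2 + 1) ≤ (B * L * s ^ 2 * vA') * (B * L ^ 2 * s ^ 2 * vB) :=
      mul_le_mul hx1 u2 (by positivity) (by positivity)
    refine f1.trans ?_
    have f2 : (B * L * s ^ 2 * vA') * (B * L ^ 2 * s ^ 2 * vB) =
        (B ^ 2 * L ^ 3 * s ^ 4 * (vA' * vB)) * 1 := by ring
    have f3 : W = (B ^ 2 * L ^ 3 * s ^ 4 * h0) * (L * m ^ 2) := by rw [hWd]; ring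
    rw [f2, f3, h5]
    exact mul_le_mul_of_nonneg_left (by nlinarith) (by positivity)
  have t3 : (a1 + 1) * (q₁ * e * a3 + 1) ≤ W := by
    have f1 : (a1 + 1) * (q₁ * e * a3 + 1) ≤ (B * L * s ^ 2 * vA) * (B * L ^ 2 * s ^ 2 * (vX * m ^ 2)) := by
      apply mul_le_mul (hx1.trans _) u3 (by positivity) (by positivity)
      exact mul_le_mul_of_nonneg_left h6 (by positivity)
    refine f1.trans ?_
    have f2 : (B * L * s ^ 2 * vA) * (B * L ^ 2 * s ^ 2 * (vX * m ^ 2)) =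
        (B ^ 2 * L ^ 3 * s ^ 4 * m ^ 2 * (vA * vX)) * 1 := by ring
    have f3 : W = (B ^ 2 * L ^ 3 * s ^ 4 * m ^ 2 * h0) * L := by rw [hWd]; ring
    rw [f2, f3, h4]
    exact mul_le_mul_of_nonneg_left hL (by positivity)
  have t4 : (e * a2 + 1) * (q₁ * e * a3 + 1) ≤ W := by
    have f1 : (e * a2 + 1) * (q₁ * e * a3 + 1) ≤ (B * L ^ 2 * s ^ 2 * vA) * (B * L ^ 2 * s ^ 2 * (vX * m ^ 2)) := by
      apply mul_le_mul (u2.trans _) u3 (by positivity) (by positivity)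
      exact mul_le_mul_of_nonneg_left h7 (by positivity)
    refine f1.trans (le_of_eq ?_)
    rw [hWd, ← h4]
    ring
  have t5 : q₂ * a0 ≤ W := u0.trans hW
  have t6 : a0 ≤ W := by
    refine le_trans ?_ t5
    nlinarith
  have t7 : a1 ≤ W := by
    refine le_trans ?_ hW
    have f1 : a1 ≤ B * L * s ^ 2 * vA' := by linarith
    exact f1.trans (mul_le_mul_of_nonneg_left h6 (by positivity))
  have hD : (q₂ * a0) * (q₁ * e * a3) + (a1 + 1) * (e * a2 + 1) + (a1 + 1) * (q₁ * e * a3 + 1) +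
      (e * a2 + 1) * (q₁ * e * a3 + 1) + q₂ * a0 + a0 + a1 ≤ 7 * W := by linarith
  have hD0 : 0 ≤ (q₂ * a0) * (q₁ * e * a3) + (a1 + 1) * (e * a2 + 1) + (a1 + 1) * (q₁ * e * a3 + 1) +
      (e * a2 + 1) * (q₁ * e * a3 + 1) + q₂ * a0 + a0 + a1 := by positivity
  have hHD := mul_le_mul hH hD hD0 (by positivity)
  have ha01 : a0 * a1 ≤ B ^ 2 * L ^ 2 * s ^ 4 * h0 ^ 2 := by
    have f1 : a0 * a1 ≤ (B * L * s ^ 2 * vA) * (B * L * s ^ 2 * vA') := by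
      apply mul_le_mul _ (by linarith) ha1 (by positivity)
      have : a0 ≤ q₂ * a0 := by nlinarith
      exact this.trans u0
    refine f1.trans ?_
    have f2 : (B * L * s ^ 2 * vA) * (B * L * s ^ 2 * vA') = B ^ 2 * L ^ 2 * s ^ 4 * (vA * vA') := by ring
    rw [f2]
    exact mul_le_mul_of_nonneg_left h8 (by positivity)
  have hfin1 : E ^ 4 * L * s ^ 2 * h0 * (7 * W) ≤ 7 * E ^ 4 * B ^ 2 * L ^ 6 * s ^ 6 * h0 ^ 2 * m ^ 2 := by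
    have f1 : E ^ 4 * L * s ^ 2 * h0 * (7 * W) = (7 * E ^ 4 * B ^ 2 * L ^ 5 * s ^ 6 * h0 ^ 2 * m ^ 2) * 1 := by
      rw [hWd]; ring
    have f2 : 7 * E ^ 4 * B ^ 2 * L ^ 6 * s ^ 6 * h0 ^ 2 * m ^ 2 =
      (7 * E ^ 4 * B ^ 2 * L ^ 5 * s ^ 6 * h0 ^ 2 * m ^ 2) * L := by ring
    rw [f1, f2]
    exact mul_le_mul_of_nonneg_left hL (by positivity)
  have hfin2 : B ^ 2 * L ^ 2 * s ^ 4 * h0 ^ 2 ≤ 2 * E ^ 4 * B ^ 2 * L ^ 6 * s ^ 6 * h0 ^ 2 * m ^ 2 := by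
    have f1 : B ^ 2 * L ^ 2 * s ^ 4 * h0 ^ 2 = (B ^ 2 * L ^ 2 * s ^ 4 * h0 ^ 2) * 1 := by ring
    have f2 : 2 * E ^ 4 * B ^ 2 * L ^ 6 * s ^ 6 * h0 ^ 2 * m ^ 2 =
      (B ^ 2 * L ^ 2 * s ^ 4 * h0 ^ 2) * (2 * E ^ 4 * L ^ 4 * s ^ 2 * m ^ 2) := by ring
    rw [f1, f2]
    apply mul_le_mul_of_nonneg_left _ (by positivity)
    have g1 : 1 ≤ E ^ 4 := one_le_pow₀ hE
    have g2 : 1 ≤ L ^ 4 := one_le_pow₀ hL
    have g3 : 1 ≤ E ^ 4 * L ^ 4 := one_le_mul_of_one_le_of_one_le g1 g2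
    have g4 : 1 ≤ E ^ 4 * L ^ 4 * s ^ 2 := one_le_mul_of_one_le_of_one_le g3 hs2
    have g5 : 1 ≤ E ^ 4 * L ^ 4 * s ^ 2 * m ^ 2 := one_le_mul_of_one_le_of_one_le g4 hm2
    linarith
  have e9 : (3 * E ^ 2 * B * L ^ 3 * s ^ 3 * h0 * m) ^ 2 =
      7 * E ^ 4 * B ^ 2 * L ^ 6 * s ^ 6 * h0 ^ 2 * m ^ 2 + 2 * E ^ 4 * B ^ 2 * L ^ 6 * s ^ 6 * h0 ^ 2 * m ^ 2 := by
    ring
  rw [e9]
  linarith

theorem NUM_nB (E B L m s q₁ q₂ vA vA' vB vX h0 P S y H e a0 a1 a2 a3 : ℝ)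
    (hE : 1 ≤ E) (hB : 1 ≤ B) (hL : 1 ≤ L) (hm : 1 ≤ m) (hs : s ^ 2 = q₁ * q₂) (hs0 : 1 ≤ s)
    (hq₁ : 1 ≤ q₁) (hq₂ : 1 ≤ q₂) (h3 : 1 ≤ vX * m ^ 2) (hA' : 0 < vA')
    (hh0 : 0 < h0) (h4 : vA * vX = h0) (h5 : vA' * vB = h0) (h6 : vA' ≤ vA) (h7 : vB ≤ vA)
    (h8 : vA * vA' ≤ h0 ^ 2) (hH : H ≤ E ^ 4 * L * s ^ 2 * h0)
    (he1 : 1 ≤ e) (he : e ≤ L)
    (ha0 : 0 ≤ a0) (ha1 : 0 ≤ a1) (ha2 : 0 ≤ a2) (ha3 : 0 ≤ a3)
    (hx0 : a0 + 1 ≤ B * L * q₁ * vA) (hx1 : a1 + 1 ≤ B * L * s ^ 2 * vA')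
    (hx2 : a2 + 1 ≤ B * L * s ^ 2 * vB) (hx3 : a3 + 1 ≤ B * L * q₂ * (vX * m ^ 2))
    (hy : 0 < y) (hP : 0 < P) (hS : 0 < S) (hPS : h0 ≤ E ^ 2 * (P * S)) :
    H * P / y + √((2 * a0 + 1) * (2 * a1 + 1) * (2 * a2 + 1) * (2 * a3 + 1)) * (√(H * P / y) + P / y) +
      √(H * ((q₂ * a0) * (q₁ * e * a3) + (a1 + 1) * (e * a2 + 1) + (a1 + 1) * (q₁ * e * a3 + 1) +
      (e * a2 + 1) * (q₁ * e * a3 + 1) + q₂ * a0 + a0 + a1) + a0 * a1) * (P / y) ≤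
      8 * B ^ 2 * E ^ 4 * L ^ 3 * s ^ 3 * h0 * m * (1 + √(s ^ 2 * y * S)) * (P / y) := by
  have g1 := NUM_prod B L m s q₁ q₂ vA vA' vB vX h0 a0 a1 a2 a3 hB hL hm hs hs0 hh0 h4 h5 ha0 ha1 ha2 ha3
    hx0 hx1 hx2 hx3
  have g2 := NUM_bracket E B L m s q₁ q₂ vA vA' vB vX h0 H e a0 a1 a2 a3 hE hB hL hm hs hs0 hq₁ hq₂ h3 hA'
    hh0 h4 h5 h6 h7 h8 hH he1 he ha0 ha1 ha2 ha3 hx0 hx1 hx2 hx3
  obtain ⟨r, hr⟩ : ∃ r, r = √(s ^ 2 * y * S) := ⟨_, rfl⟩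
  have hr0 : 0 ≤ r := hr ▸ Real.sqrt_nonneg _
  have hrr : r ^ 2 = s ^ 2 * y * S := by rw [hr]; exact Real.sq_sqrt (by positivity)
  obtain ⟨t, ht⟩ : ∃ t, t = P / y := ⟨_, rfl⟩
  have ht0 : 0 < t := by rw [ht]; positivity
  have hty : t * y = P := by rw [ht]; field_simp
  have hE2 : 1 ≤ E ^ 2 := one_le_pow₀ hE
  have hE3 : E ^ 3 ≤ E ^ 4 := pow_le_pow_right₀ hE (by norm_num)
  have hE4 : 1 ≤ E ^ 4 := one_le_pow₀ hE
  have hE24 : E ^ 2 ≤ E ^ 4 := pow_le_pow_right₀ hE (by norm_num)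
  have hB2 : 1 ≤ B ^ 2 := one_le_pow₀ hB
  have hB12 : B ≤ B ^ 2 := by nlinarith
  have hL0 : 0 < L := by linarith
  have hm0 : 0 < m := by linarith
  have hs00 : 0 < s := by linarith
  have hB0 : 0 < B := by linarith
  have hE0 : 0 < E := by linarith
  have hHP : H * P / y = H * t := by rw [ht]; ring
  have g3 : √(H * P / y) ≤ t * (E ^ 3 * L * r) := by
    apply Real.sqrt_le_iff.2
    refine ⟨by positivity, ?_⟩
    rw [hHP]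
    have f1 : (t * (E ^ 3 * L * r)) ^ 2 = t * (E ^ 6 * L ^ 2 * s ^ 2 * S * (t * y)) := by
      have : (t * (E ^ 3 * L * r)) ^ 2 = t ^ 2 * E ^ 6 * L ^ 2 * r ^ 2 := by ring
      rw [this, hrr]
      ring
    rw [f1, hty, mul_comm H t]
    apply mul_le_mul_of_nonneg_left _ ht0.le
    refine hH.trans ?_
    calc E ^ 4 * L * s ^ 2 * h0 ≤ E ^ 4 * L * s ^ 2 * (E ^ 2 * (P * S)) :=
          mul_le_mul_of_nonneg_left hPS (by positivity)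
      _ = (E ^ 6 * L * s ^ 2 * S * P) * 1 := by ring
      _ ≤ (E ^ 6 * L * s ^ 2 * S * P) * L := mul_le_mul_of_nonneg_left hL (by positivity)
      _ = E ^ 6 * L ^ 2 * s ^ 2 * S * P := by ring
  rw [← hr, ← ht] at *
  obtain ⟨U, hU⟩ : ∃ U, U = L ^ 3 * s ^ 3 * h0 * m := ⟨_, rfl⟩
  have hU0 : 0 < U := by rw [hU]; positivity
  have k1 : H * P / y ≤ E ^ 4 * U * t := by
    rw [hHP]
    apply mul_le_mul_of_nonneg_right _ ht0.le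
    refine hH.trans ?_
    have f1 : E ^ 4 * L * s ^ 2 * h0 = (E ^ 4 * L * s ^ 2 * h0) * 1 := by ring
    have f2 : E ^ 4 * U = (E ^ 4 * L * s ^ 2 * h0) * (L ^ 2 * s * m) := by rw [hU]; ring
    rw [f1, f2]
    apply mul_le_mul_of_nonneg_left _ (by positivity)
    exact one_le_mul_of_one_le_of_one_le (one_le_mul_of_one_le_of_one_le (one_le_pow₀ hL) hs0) hm
  have k2 : √((2 * a0 + 1) * (2 * a1 + 1) * (2 * a2 + 1) * (2 * a3 + 1)) * (√(H * P / y) + t) ≤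
      4 * B ^ 2 * E ^ 4 * U * (r + 1) * t := by
    have f1 := mul_le_mul g1 (add_le_add_left g3 t) (by positivity) (by positivity)
    refine f1.trans ?_
    have f2 : 4 * B ^ 2 * L ^ 2 * s ^ 3 * h0 * m * (t * (E ^ 3 * L * r) + t) =
        4 * B ^ 2 * s ^ 3 * h0 * m * t * (E ^ 3 * L ^ 3 * r + L ^ 2 * 1) := by ring
    have f3 : 4 * B ^ 2 * E ^ 4 * U * (r + 1) * t =
        4 * B ^ 2 * s ^ 3 * h0 * m * t * (E ^ 4 * L ^ 3 * r + L ^ 2 * (L * E ^ 4)) := by rw [hU]; ring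
    rw [f2, f3]
    apply mul_le_mul_of_nonneg_left _ (by positivity)
    apply add_le_add
    · apply mul_le_mul_of_nonneg_right _ hr0
      exact mul_le_mul_of_nonneg_right hE3 (by positivity)
    · apply mul_le_mul_of_nonneg_left _ (by positivity)
      exact one_le_mul_of_one_le_of_one_le hL hE4
  have k3 := mul_le_mul_of_nonneg_right g2 ht0.le
  have k4 : 3 * E ^ 2 * B * L ^ 3 * s ^ 3 * h0 * m * t ≤ 3 * B ^ 2 * E ^ 4 * U * t := by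
    have f1 : 3 * E ^ 2 * B * L ^ 3 * s ^ 3 * h0 * m * t = (B * E ^ 2) * (3 * U * t) := by rw [hU]; ring
    have f2 : 3 * B ^ 2 * E ^ 4 * U * t = (B ^ 2 * E ^ 4) * (3 * U * t) := by ring
    rw [f1, f2]
    apply mul_le_mul_of_nonneg_right _ (by positivity)
    exact mul_le_mul hB12 hE24 (by positivity) (by positivity)
  have k5 : E ^ 4 * U * t ≤ B ^ 2 * E ^ 4 * U * t := by
    have : B ^ 2 * E ^ 4 * U * t = B ^ 2 * (E ^ 4 * U * t) := by ring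
    rw [this]
    exact le_mul_of_one_le_left (by positivity) hB2
  have k6 : 8 * B ^ 2 * E ^ 4 * L ^ 3 * s ^ 3 * h0 * m * (1 + r) * t =
      8 * (B ^ 2 * E ^ 4 * U * t) + 8 * (B ^ 2 * E ^ 4 * U * t) * r := by rw [hU]; ring
  have k7 : 4 * B ^ 2 * E ^ 4 * U * (r + 1) * t =
      4 * (B ^ 2 * E ^ 4 * U * t) + 4 * (B ^ 2 * E ^ 4 * U * t) * r := by ring
  have k8 : 3 * B ^ 2 * E ^ 4 * U * t = 3 * (B ^ 2 * E ^ 4 * U * t) := by ring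
  rw [k6]
  rw [k7] at k2
  rw [k8] at k4
  have k9 : 0 ≤ (B ^ 2 * E ^ 4 * U * t) * r := by positivity
  linarith

end Pool.Agent.T5
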