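import Pool.Agent.helper11.T5.NumGen

set_option autoImplicit false

/-!
# T5, common part of the rows NUMC and NUMT: the setting
-/

namespace Pool.Agent.T5

open Finset NumberField Pool.Agent.helper3.FT Pool.Agent.helper47.RA

theorem NUM_set (δ N Y Y₂ : ℝ) (hδ : 0 < δ) (hδ1 : δ ≤ 1 / 10) (hN : 1 ≤ N) (h : Rng δ N Y Y₂) :
    ∃ p q w m : ℝ, 0 < p ∧ 0 < q ∧ 0 < w ∧ 1 ≤ m ∧ Y = p ^ 2 ∧ Y₂ = q ^ 2 ∧ p ≤ q ∧
      1 ≤ p ^ 2 * q ^ 3 / w ^ 2 ∧ 1 ≤ p ^ 3 * q ^ 2 / w ^ 2 ∧ 1 ≤ p ^ 5 / w ^ 2 * m ^ 2 ∧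
      p ^ 5 / w ^ 2 * m ^ 2 ≤ q ^ 5 / w ^ 2 ∧ w ^ 4 ≤ p ^ 8 * q ^ 2 ∧
      sN N Y Y₂ = p ^ 2 * q / w ∧ sK N Y Y₂ = p * q ^ 2 / w ∧ sM N Y Y₂ = p ^ 3 * q / w ∧
      sG N Y Y₂ = p * q ^ 3 / w ∧
      (∀ y : ℝ, relE δ N Y Y₂ y = N ^ (δ / 100) * m * (p ^ 3 * q ^ 3 / w ^ 3) *
        (1 + √(y * (p ^ 2 * q ^ 2 / w ^ 2)))) ∧ q ^ 5 / w ^ 2 ≤ N ^ (0.26 : ℝ) := by
  obtain ⟨hY1, hY2, hW1, hW2⟩ := h
  have hN0 : 0 < N := by linarith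
  have hY0 : 0 < Y := lt_of_lt_of_le (by positivity) hY1
  have hW0 : 0 < Y₂ := lt_of_lt_of_le (by positivity) hW1
  obtain ⟨p, hp⟩ : ∃ p, p = √Y := ⟨_, rfl⟩
  obtain ⟨q, hq⟩ : ∃ q, q = √Y₂ := ⟨_, rfl⟩
  obtain ⟨w, hw⟩ : ∃ w, w = √N := ⟨_, rfl⟩
  have hp0 : 0 < p := hp ▸ Real.sqrt_pos.2 hY0
  have hq0 : 0 < q := hq ▸ Real.sqrt_pos.2 hW0
  have hw0 : 0 < w := hw ▸ Real.sqrt_pos.2 hN0
  have hpp : Y = p ^ 2 := by rw [hp, Real.sq_sqrt hY0.le]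
  have hqq : Y₂ = q ^ 2 := by rw [hq, Real.sq_sqrt hW0.le]
  have hww : N = w ^ 2 := by rw [hw, Real.sq_sqrt hN0.le]
  have hYN : Y ≤ N ^ (1 / 2 : ℝ) :=
    hY2.trans (Real.rpow_le_rpow_of_exponent_le hN (by linarith))
  have hpq : p ≤ q := by
    rw [hp, hq]
    exact Real.sqrt_le_sqrt (hYN.trans hW1)
  have hpl : N ^ (0.1925 : ℝ) ≤ p := by
    rw [hp]
    apply Real.le_sqrt_of_sq_le
    rw [← Real.rpow_natCast, ← Real.rpow_mul hN0.le]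
    refine le_trans (le_of_eq ?_) hY1
    norm_num
  have hql : N ^ (0.25 : ℝ) ≤ q := by
    rw [hq]
    apply Real.le_sqrt_of_sq_le
    rw [← Real.rpow_natCast, ← Real.rpow_mul hN0.le]
    refine le_trans (le_of_eq ?_) hW1
    norm_num
  have hqu : q ≤ N ^ (0.25 + δ / 200 : ℝ) := by
    rw [hq]
    apply Real.sqrt_le_iff.2
    refine ⟨by positivity, ?_⟩
    rw [← Real.rpow_natCast, ← Real.rpow_mul hN0.le]
    refine hW2.trans (le_of_eq ?_)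
    congr 1
    push_cast
    ring
  have hlow := NUM_low N p q hN hpl hql
  have hN1 : N = N ^ (1 : ℝ) := (Real.rpow_one N).symm
  have l23 : w ^ 2 ≤ p ^ 2 * q ^ 3 := by
    rw [← hww]
    conv_lhs => rw [hN1]
    exact hlow 2 3 1 (by norm_num)
  have l32 : w ^ 2 ≤ p ^ 3 * q ^ 2 := by
    rw [← hww]
    conv_lhs => rw [hN1]
    exact hlow 3 2 1 (by norm_num)
  have l05 : w ^ 2 ≤ q ^ 5 := by
    rw [← hww]
    conv_lhs => rw [hN1]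
    refine (hlow 0 5 1 (by norm_num)).trans (le_of_eq ?_)
    ring
  have l82 : w ^ 4 ≤ p ^ 8 * q ^ 2 := by
    have : w ^ 4 = N ^ (2 : ℝ) := by
      rw [hww, show (2 : ℝ) = ((2 : ℕ) : ℝ) by norm_num, Real.rpow_natCast]
      ring
    rw [this]
    exact hlow 8 2 2 (by norm_num)
  have hp5 : Y ^ (5 / 2 : ℝ) = p ^ 5 := by
    rw [hpp, ← Real.rpow_natCast, ← Real.rpow_mul hp0.le, ← Real.rpow_natCast]
    norm_num
  have hm1 : 1 ≤ max 1 (N / Y ^ (5 / 2 : ℝ)) := le_max_left _ _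
  obtain ⟨m, hm⟩ : ∃ m, m = √(max 1 (N / Y ^ (5 / 2 : ℝ))) := ⟨_, rfl⟩
  have hmm : m ^ 2 = max 1 (N / p ^ 5) := by
    rw [hm, Real.sq_sqrt (by linarith), hp5]
  have hm1' : 1 ≤ m := by
    rw [hm]
    exact Real.one_le_sqrt.2 hm1
  refine ⟨p, q, w, m, hp0, hq0, hw0, hm1', hpp, hqq, hpq, ?_, ?_, ?_, ?_, l82, ?_, ?_, ?_, ?_, ?_, ?_⟩
  · rw [le_div_iff₀ (by positivity), one_mul]; exact l23
  · rw [le_div_iff₀ (by positivity), one_mul]; exact l32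
  · rw [hmm]
    have h1 : N / p ^ 5 ≤ max 1 (N / p ^ 5) := le_max_right _ _
    have h2 : p ^ 5 / w ^ 2 * (N / p ^ 5) = 1 := by
      rw [hww]; field_simp
    calc (1 : ℝ) = p ^ 5 / w ^ 2 * (N / p ^ 5) := h2.symm
      _ ≤ _ := mul_le_mul_of_nonneg_left h1 (by positivity)
  · rw [hmm, div_mul_eq_mul_div]
    apply div_le_div_of_nonneg_right _ (by positivity)
    rcases le_total (N / p ^ 5) 1 with h1 | h1
    · rw [max_eq_left h1, mul_one]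
      gcongr
    · rw [max_eq_right h1]
      have : p ^ 5 * (N / p ^ 5) = w ^ 2 := by rw [hww]; field_simp
      rw [this]
      exact l05
  · rw [sN, ← hq, ← hw, hpp]
  · rw [sK, ← hp, ← hw, hqq]
  · rw [sM, ← hp, ← hq, ← hw, hpp]; ring
  · rw [sG, ← hp, ← hq, ← hw, hqq]; ring
  · intro y
    have h1 : Y * Y₂ / N = (p * q / w) ^ 2 := by rw [hpp, hqq, hww]; ring
    have h2 : (Y * Y₂ / N) ^ (3 / 2 : ℝ) = p ^ 3 * q ^ 3 / w ^ 3 := by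
      rw [h1, ← Real.rpow_natCast, ← Real.rpow_mul (by positivity)]
      have : ((2 : ℕ) : ℝ) * (3 / 2) = ((3 : ℕ) : ℝ) := by norm_num
      rw [this, Real.rpow_natCast]
      ring
    rw [relE, ← hm, h2]
    have h3 : Y * Y₂ / N = p ^ 2 * q ^ 2 / w ^ 2 := by rw [hpp, hqq, hww]
    rw [h3]
  · rw [div_le_iff₀ (by positivity), ← hww]
    have h1 : q ^ 5 ≤ (N ^ (0.25 + δ / 200 : ℝ)) ^ 5 := by gcongr
    refine h1.trans ?_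
    have h2 : N ^ (0.26 : ℝ) * N = N ^ (0.26 + 1 : ℝ) := by rw [Real.rpow_add hN0, Real.rpow_one]
    rw [h2, ← Real.rpow_natCast, ← Real.rpow_mul hN0.le]
    apply Real.rpow_le_rpow_of_exponent_le hN
    push_cast
    linarith

theorem NUM_large (A δ : ℝ) (hδ : 0 < δ) : ∃ N₀ : ℝ, 1 ≤ N₀ ∧ ∀ N : ℝ, N₀ ≤ N → A ≤ N ^ (δ / 400) := by
  refine ⟨max 1 ((max A 1) ^ (400 / δ)), le_max_left _ _, ?_⟩
  intro N hN
  have h1 : (max A 1) ^ (400 / δ) ≤ N := (le_max_right _ _).trans hN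
  have h0 : 0 < max A 1 := lt_of_lt_of_le one_pos (le_max_right _ _)
  have h2 := Real.rpow_le_rpow (by positivity) h1 (show 0 ≤ δ / 400 by positivity)
  rw [← Real.rpow_mul h0.le] at h2
  have h3 : 400 / δ * (δ / 400) = 1 := by field_simp
  rw [h3, Real.rpow_one] at h2
  exact (le_max_left _ _).trans h2

end Pool.Agent.T5
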