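import Pool.Agent.helper94.T5.SpecV

set_option autoImplicit false

/-!
# T5, row VID
-/

namespace Pool.Agent.T5V

open MeasureTheory Set
open scoped ENNReal

theorem VID_aux (b n c U v : ℝ) (hb : 0 < b) (hn : 0 < n) (hc : 0 < c) (hU : 0 < U) (hv : v ≠ 0) :
    La (b ^ 2) n (n * (c / b) * U) (n * b * v)
      ((c ^ 2 * n ^ 2 - b ^ 2 * (n * (c / b) * U) ^ 2) / (n * b * v)) = c ^ 2 ∧
    Wd (b ^ 2) n (n * (c / b) * U) (n * b * v)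
      ((c ^ 2 * n ^ 2 - b ^ 2 * (n * (c / b) * U) ^ 2) / (n * b * v)) =
      (4 * (b ^ 2) ^ 2 * c ^ 2 * Sg U v) / n ^ 2 := by
  have h1 : La (b ^ 2) n (n * (c / b) * U) (n * b * v)
      ((c ^ 2 * n ^ 2 - b ^ 2 * (n * (c / b) * U) ^ 2) / (n * b * v)) = c ^ 2 := by
    unfold La
    field_simp
    ring
  refine ⟨h1, ?_⟩
  unfold Wd
  rw [h1]
  unfold Sg
  field_simp
  ring

theorem VID : VID_stmt := by
  intro Z n l U v hZ hn hl hU hv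
  obtain ⟨b, hb, rfl⟩ : ∃ b : ℝ, 0 < b ∧ Z = b ^ 2 := ⟨√Z, Real.sqrt_pos.2 hZ, (Real.sq_sqrt hZ.le).symm⟩
  obtain ⟨c, hc, rfl⟩ : ∃ c : ℝ, 0 < c ∧ l = c ^ 2 := ⟨√l, Real.sqrt_pos.2 hl, (Real.sq_sqrt hl.le).symm⟩
  have e1 : √(c ^ 2 / b ^ 2) = c / b := by
    rw [← div_pow, Real.sqrt_sq (by positivity)]
  have e2 : √(b ^ 2) = b := Real.sqrt_sq hb.le
  have e3 : √(c ^ 2) = c := Real.sqrt_sq hc.le
  rw [e1, e2]
  obtain ⟨h1, h2⟩ := VID_aux b n c U v hb hn hc hU hv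
  refine ⟨h1, h2, fun hS => ?_⟩
  have h3 : √((4 * (b ^ 2) ^ 2 * c ^ 2 * Sg U v) / n ^ 2) = 2 * b ^ 2 * c / n * √(Sg U v) := by
    have : (4 * (b ^ 2) ^ 2 * c ^ 2 * Sg U v) / n ^ 2 = (2 * b ^ 2 * c / n) ^ 2 * Sg U v := by
      field_simp
      ring
    rw [this, Real.sqrt_mul (sq_nonneg _), Real.sqrt_sq (by positivity)]
  constructor
  · unfold S1
    rw [h1, h2, h3, e3]
    field_simp
  · unfold S2
    rw [h1, h2, h3, e2]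
    field_simp

end Pool.Agent.T5V
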